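import Pool.Agent.Lib.MP_acafa7_al.MS.Iface2

/-! Module AnnH: homotopy on a face. -/

namespace MSG.H25

open Classical

theorem rel_refl {V D : Type} [Fintype D] {a : Equiv.Perm V} (M : LMap V D a) (R : List D) :
    M.Rel R M R 0 := by
  refine ⟨fun x => x.1, fun x y h => Subtype.ext h, fun x => x.2, fun x y h => h,
    fun x => ⟨rfl, rfl⟩, fun d' h h' => absurd rfl (h' ⟨d', h⟩), ?_⟩
  rw [mul_zero, add_zero]

/-- AnnH -/
theorem annh (hS : StepStatement) (hT : RelTransStatement) : AnnHStatement := by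
  intro V D _ X a ha M R w w' hP hAdj hW hH
  have key : ∀ w w', Hom3 X.G w w' → ∀ (D : Type) (_ : Fintype D) (M : LMap V D a) (R : List D),
      M.Planar → M.AdjM X.G → M.HasWalk R w →
      ∃ (D' : Type) (_ : Fintype D') (M' : LMap V D' a) (R' : List D') (n : ℕ), M'.HasWalk R' w' ∧
        M'.Planar ∧ M'.AdjM X.G ∧ M.Rel R M' R' n := by
    intro w w' hH
    induction hH with
    | refl l =>
      intro D _ M R hP hAdj hW
      exact ⟨D, inferInstance, M, R, 0, hW, hP, hAdj, rel_refl M R⟩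
    | @step l l' l'' e hs hl _ ih =>
      intro D _ M R hP hAdj hW
      have hω : Cocyc X.G Set.univ (fun _ _ _ => (0 : ZMod 2)) :=
        ⟨fun _ _ _ => rfl, fun _ _ _ => rfl, fun _ _ _ _ _ _ _ _ _ _ _ _ _ _ => by simp⟩
      obtain ⟨D', _, M', R', hW', hP', hA', hR, -⟩ := hS V D X a ha M R Set.univ
        (fun _ _ _ => 0) _ _ _ hω hP hAdj hW hs hl
      obtain ⟨D'', _, M'', R'', n, hW'', hP'', hA'', hR'⟩ := ih D' inferInstance M' R' hP' hA' hW'
      exact ⟨D'', inferInstance, M'', R'', _, hW'', hP'', hA'',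
        hT V D D' D'' a M M' M'' R R' R'' _ _ (Or.inr hW.1) (Or.inr hW'.1) hR hR'⟩
  exact key w w' hH D inferInstance M R hP hAdj hW

end MSG.H25
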