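import Pool.Agent.Lib.MP_acafa7_al.MS.Iface1

/-! Module Grid: closed walks in the grid of a `ℤ²`.  The homotopy classes of pairs (`g`, walk from
`x₀` to `g x₀` inside `Y`) form a group. -/

namespace MSG.H25

open Classical

namespace Gr

section walks

variable {V : Type} {G : SimpleGraph V}

theorem isW_ne {x y : V} {l : List V} (h : IsW G x y l) : l ≠ [] := by
  rintro rfl
  simpa using h.first

theorem isW_cons {x y : V} {l : List V} (h : IsW G x y l) : ∃ l', l = x :: l' := by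
  cases l with
  | nil => exact absurd rfl (isW_ne h)
  | cons c l' =>
    have := h.first
    simp only [List.head?_cons, Option.some.injEq] at this
    exact ⟨l', by rw [this]⟩

theorem isW_concat {x y : V} {l : List V} (h : IsW G x y l) : l.dropLast ++ [y] = l :=
  List.dropLast_append_getLast? y h.last

theorem cat_eq {x y z : V} {l m : List V} (h : IsW G x y l) (h' : IsW G y z m) :
    cat l m = l.dropLast ++ m := by
  obtain ⟨m0, rfl⟩ := isW_cons h'
  unfold cat
  conv_lhs => rw [← isW_concat h]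
  simp

theorem isW_cat {x y z : V} {l m : List V} (h : IsW G x y l) (h' : IsW G y z m) :
    IsW G x z (cat l m) := by
  refine ⟨?_, ?_, ?_⟩
  · obtain ⟨m0, rfl⟩ := isW_cons h'
    unfold cat
    rw [List.tail_cons, List.isChain_append]
    refine ⟨h.chain, h'.chain.tail, ?_⟩
    intro u hu v hv
    have h1 := h.last
    rw [Option.mem_def] at hu hv
    rw [hu, Option.some.injEq] at h1
    rw [h1]
    cases m0 with
    | nil => simp at hv
    | cons c m1 =>
      simp only [List.head?_cons, Option.some.injEq] at hv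
      rw [← hv]
      have := h'.chain
      rw [List.isChain_cons_cons] at this
      exact this.1
  · obtain ⟨l0, rfl⟩ := isW_cons h
    simp [cat]
  · rw [cat_eq h h', List.getLast?_append_of_ne_nil _ (isW_ne h')]
    exact h'.last

theorem isW_reverse {x y : V} {l : List V} (h : IsW G x y l) : IsW G y x l.reverse := by
  refine ⟨?_, ?_, ?_⟩
  · rw [List.isChain_reverse]
    exact h.chain.imp (fun _ _ h => h.symm)
  · rw [List.head?_reverse]; exact h.last
  · rw [List.getLast?_reverse]; exact h.first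

theorem isW_map {x y : V} {l : List V} (f : V → V) (hf : ∀ x y, G.Adj x y → G.Adj (f x) (f y))
    (h : IsW G x y l) : IsW G (f x) (f y) (l.map f) := by
  refine ⟨?_, ?_, ?_⟩
  · rw [List.isChain_map]
    exact h.chain.imp (fun _ _ h => hf _ _ h)
  · rw [List.head?_map, h.first]; rfl
  · rw [List.getLast?_map, h.last]; rfl

theorem cat_assoc {y z : V} {l m n : List V} (h' : IsW G y z m) :
    cat (cat l m) n = cat l (cat m n) := by
  obtain ⟨m0, rfl⟩ := isW_cons h'
  simp [cat]

theorem cat_map (f : V → V) (l m : List V) : (cat l m).map f = cat (l.map f) (m.map f) := by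
  simp [cat]

theorem cat_last {l : List V} (y : V) : cat l [y] = l := by simp [cat]

theorem cat_single {x y : V} {l : List V} (h : IsW G x y l) : cat [x] l = l := by
  obtain ⟨l0, rfl⟩ := isW_cons h
  rfl

theorem cat_reverse {x y z : V} {l m : List V} (h : IsW G x y l) (h' : IsW G y z m) :
    (cat l m).reverse = cat m.reverse l.reverse := by
  rw [cat_eq h h', List.reverse_append]
  unfold cat
  rw [List.tail_reverse]

theorem isW_single (x : V) : IsW G x x [x] := ⟨by simp, rfl, rfl⟩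

theorem mem_cat {l m : List V} {v : V} (h : v ∈ cat l m) : v ∈ l ∨ v ∈ m := by
  unfold cat at h
  rcases List.mem_append.1 h with h | h
  · exact Or.inl h
  · exact Or.inr (List.mem_of_mem_tail h)

theorem exists_isW (hG : G.Connected) (x y : V) : ∃ l, IsW G x y l := by
  obtain ⟨p⟩ := hG.preconnected x y
  refine ⟨p.support, p.isChain_adj_support, ?_, ?_⟩
  · rw [List.head?_eq_some_head p.support_ne_nil, p.head_support]
  · rw [List.getLast?_eq_some_getLast p.support_ne_nil, p.getLast_support]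

end walks

/-- weight-free homotopies inside `Y` -/
def Ho {V : Type} (G : SimpleGraph V) (Y : Set V) (l l' : List V) : Prop :=
  Hom G Y (fun _ _ _ => 0) l l' 0

section alg

variable {V : Type} {G : SimpleGraph V} {Y : Set V}

theorem hom_zero {l l' : List V} {e : ZMod 2} (h : Hom G Y (fun _ _ _ => 0) l l' e) : e = 0 := by
  induction h with
  | refl l => rfl
  | step hs _ ih =>
    rw [ih, add_zero]
    cases hs <;> rfl

theorem ho_refl (l : List V) : Ho G Y l l := Hom.refl l

variable (hA : HomAStatement)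
include hA

theorem ho_trans {l l' l'' : List V} (h : Ho G Y l l') (h' : Ho G Y l' l'') : Ho G Y l l'' := by
  have := (hA V G Y (fun _ _ _ => 0)).1 l l' l'' 0 0 h h'
  rwa [add_zero] at this

theorem ho_congr {l l' : List V} (u v : List V) (h : Ho G Y l l') :
    Ho G Y (u ++ l ++ v) (u ++ l' ++ v) :=
  (hA V G Y (fun _ _ _ => 0)).2.1 u v l l' 0 h

theorem ho_symm {l l' : List V} (hl : ∀ x ∈ l, x ∈ Y) (h : Ho G Y l l') :
    (∀ x ∈ l', x ∈ Y) ∧ Ho G Y l' l :=
  (hA V G Y (fun _ _ _ => 0)).2.2.1 l l' 0 hl h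

theorem ho_mono {l l' : List V} {Y' : Set V} (hY : Y ⊆ Y') (h : Ho G Y l l') : Ho G Y' l l' :=
  (hA V G Y (fun _ _ _ => 0)).2.2.2.2.1 l l' 0 Y' hY h

theorem ho_isW {l l' : List V} {x y : V} (h : Ho G Y l l') (hl : IsW G x y l) : IsW G x y l' :=
  (hA V G Y (fun _ _ _ => 0)).2.2.2.2.2.1 l l' 0 x y h hl

theorem ho_reverse {l l' : List V} (h : Ho G Y l l') : Ho G Y l.reverse l'.reverse :=
  (hA V G Y (fun _ _ _ => 0)).2.2.2.2.2.2.1 l l' 0 (fun _ _ _ => ⟨rfl, rfl⟩) h

theorem ho_cancel {l : List V} {x y : V} (h : IsW G x y l) (hl : ∀ z ∈ l, z ∈ Y) :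
    Ho G Y (cat l l.reverse) [x] :=
  (hA V G Y (fun _ _ _ => 0)).2.2.2.2.2.2.2.2.1 l x y h hl

theorem ho_map {l l' : List V} (b : Equiv.Perm V) (hb : ∀ x y, G.Adj (b x) (b y) ↔ G.Adj x y)
    (hY : ∀ y, b y ∈ Y ↔ y ∈ Y) (h : Ho G Y l l') : Ho G Y (l.map b) (l'.map b) := by
  have := (hA V G Y (fun _ _ _ => 0)).2.2.2.2.2.2.2.2.2 b hb l l' 0 h
  have hY' : b '' Y = Y := by
    ext y
    constructor
    · rintro ⟨y', hy', rfl⟩
      exact (hY y').2 hy'
    · intro hy
      exact ⟨b.symm y, (hY _).1 (by simpa using hy), by simp⟩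
  rw [hY'] at this
  exact this

theorem ho_cat {l l' m m' : List V} {x y z : V} (hl : IsW G x y l) (hm : IsW G y z m)
    (h : Ho G Y l l') (h' : Ho G Y m m') : Ho G Y (cat l m) (cat l' m') := by
  have h1 : Ho G Y (cat l m) (cat l' m) := by
    have := ho_congr hA [] m.tail h
    simpa [cat] using this
  have h2 : Ho G Y (cat l' m) (cat l' m') := by
    have hl' := ho_isW hA h hl
    have hm' := ho_isW hA h' hm
    rw [cat_eq hl' hm, cat_eq hl' hm']
    have := ho_congr hA l'.dropLast [] h'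
    simpa using this
  exact ho_trans hA h1 h2

theorem ho_of_loop {P Q : List V} {x y : V} (hP : IsW G x y P) (hQ : IsW G x y Q)
    (hPY : ∀ z ∈ P, z ∈ Y) (hQY : ∀ z ∈ Q, z ∈ Y) (h : Ho G Y (cat P Q.reverse) [x]) :
    Ho G Y P Q := by
  have hQr := isW_reverse hQ
  have hQrY : ∀ z ∈ Q.reverse, z ∈ Y := fun z hz => hQY z (List.mem_reverse.1 hz)
  have h1 := ho_cancel hA hQr hQrY
  rw [List.reverse_reverse] at h1
  have h2 : Ho G Y (cat P (cat Q.reverse Q)) P := by
    have := ho_cat hA hP (isW_cat hQr hQ) (ho_refl P) h1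
    rwa [cat_last] at this
  have h3 : Ho G Y (cat P (cat Q.reverse Q)) Q := by
    rw [← cat_assoc hQr]
    have := ho_cat hA (isW_cat hP hQr) hQ h (ho_refl Q)
    rwa [cat_single hQ] at this
  refine ho_trans hA (ho_symm hA ?_ h2).2 h3
  intro v hv
  rcases mem_cat hv with h | h
  · exact hPY v h
  · rcases mem_cat h with h | h
    · exact hQrY v h
    · exact hQY v h

end alg

/-! ### The group -/

section group

variable {V : Type} (G : SimpleGraph V) (Y : Set V) (Γ : Type) [Group Γ] [MulAction Γ V] (x₀ : V)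

structure Pr where
  g : Γ
  l : List V
  hg : ∀ y, g • y ∈ Y ↔ y ∈ Y
  hl : ∀ v ∈ l, v ∈ Y
  hw : IsW G x₀ (g • x₀) l

variable {G Y Γ x₀}

/-- the equivalence relation -/
def stp (hA : HomAStatement) : Setoid (Pr G Y Γ x₀) where
  r p q := p.g = q.g ∧ Ho G Y p.l q.l
  iseqv := ⟨fun _ => ⟨rfl, ho_refl _⟩, fun {p _} h => ⟨h.1.symm, (ho_symm hA p.hl h.2).2⟩,
    fun h h' => ⟨h.1.trans h'.1, ho_trans hA h.2 h'.2⟩⟩

variable (hadj : ∀ (g : Γ) x y, G.Adj (g • x) (g • y) ↔ G.Adj x y) (hx₀ : x₀ ∈ Y)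

def Pr.one : Pr G Y Γ x₀ where
  g := 1
  l := [x₀]
  hg y := by rw [one_smul]
  hl v hv := by rw [List.mem_singleton.1 hv]; exact hx₀
  hw := by rw [one_smul]; exact isW_single x₀

def Pr.mul (p q : Pr G Y Γ x₀) : Pr G Y Γ x₀ where
  g := p.g * q.g
  l := cat p.l (q.l.map (fun v => p.g • v))
  hg y := by rw [mul_smul, p.hg, q.hg]
  hl v hv := by
    rcases mem_cat hv with h | h
    · exact p.hl v h
    · obtain ⟨v', hv', rfl⟩ := List.mem_map.1 h
      exact (p.hg v').2 (q.hl v' hv')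
  hw := by
    rw [mul_smul]
    exact isW_cat p.hw (isW_map _ (fun x y h => (hadj _ x y).2 h) q.hw)

def Pr.inv (p : Pr G Y Γ x₀) : Pr G Y Γ x₀ where
  g := p.g⁻¹
  l := (p.l.map (fun v => p.g⁻¹ • v)).reverse
  hg y := by
    rw [← p.hg (p.g⁻¹ • y), smul_inv_smul]
  hl v hv := by
    obtain ⟨v', hv', rfl⟩ := List.mem_map.1 (List.mem_reverse.1 hv)
    rw [← p.hg, smul_inv_smul]
    exact p.hl v' hv'
  hw := by
    have := isW_map (fun v => p.g⁻¹ • v) (fun x y h => (hadj _ x y).2 h) p.hw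
    have h2 := isW_reverse this
    rw [inv_smul_smul] at h2
    exact h2

/-- The group of homotopy classes. -/
def EG (hA : HomAStatement) (G : SimpleGraph V) (Y : Set V) (Γ : Type) [Group Γ] [MulAction Γ V]
    (x₀ : V) : Type := Quotient (stp (G := G) (Y := Y) (Γ := Γ) (x₀ := x₀) hA)

noncomputable def grp (hA : HomAStatement) : Group (EG hA G Y Γ x₀) :=
  letI : Setoid (Pr G Y Γ x₀) := stp hA
  letI : Mul (EG hA G Y Γ x₀) := ⟨Quotient.map₂ (Pr.mul hadj) (by
    rintro p p' ⟨h1, h2⟩ q q' ⟨h3, h4⟩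
    refine ⟨?_, ?_⟩
    · show p.g * q.g = p'.g * q'.g
      rw [h1, h3]
    · show Ho G Y (cat p.l (q.l.map (fun v => p.g • v))) (cat p'.l (q'.l.map (fun v => p'.g • v)))
      rw [← h1]
      exact ho_cat hA p.hw (isW_map _ (fun x y h => (hadj _ x y).2 h) q.hw) h2
        (ho_map hA (MulAction.toPerm p.g) (hadj p.g) p.hg h4))⟩
  letI : Inv (EG hA G Y Γ x₀) := ⟨Quotient.map (Pr.inv hadj) (by
    rintro p p' ⟨h1, h2⟩
    refine ⟨?_, ?_⟩
    · show p.g⁻¹ = p'.g⁻¹
      rw [h1]
    · show Ho G Y (p.l.map (fun v => p.g⁻¹ • v)).reverse (p'.l.map (fun v => p'.g⁻¹ • v)).reverse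
      rw [← h1]
      exact ho_reverse hA (ho_map hA (MulAction.toPerm p.g⁻¹) (hadj p.g⁻¹) (Pr.inv hadj p).hg h2))⟩
  letI : One (EG hA G Y Γ x₀) := ⟨Quotient.mk _ (Pr.one hx₀)⟩
  Group.ofLeftAxioms
    (by
      intro p q r
      induction p using Quotient.inductionOn
      induction q using Quotient.inductionOn
      induction r using Quotient.inductionOn
      rename_i p q r
      refine Quotient.sound ⟨?_, ?_⟩
      · show p.g * q.g * r.g = p.g * (q.g * r.g)
        rw [mul_assoc]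
      · show Ho G Y (cat (cat p.l (q.l.map (fun v => p.g • v))) (r.l.map (fun v => (p.g * q.g) • v)))
          (cat p.l ((cat q.l (r.l.map (fun v => q.g • v))).map (fun v => p.g • v)))
        have e1 : r.l.map (fun v => (p.g * q.g) • v) =
            (r.l.map (fun v => q.g • v)).map (fun v => p.g • v) := by
          rw [List.map_map]
          exact List.map_congr_left (fun v _ => mul_smul _ _ _)
        have hq := isW_map (fun v => p.g • v) (fun x y h => (hadj _ x y).2 h) q.hw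
        rw [e1, cat_map, cat_assoc hq]
        exact ho_refl _)
    (by
      intro p
      induction p using Quotient.inductionOn
      rename_i p
      refine Quotient.sound ⟨?_, ?_⟩
      · show 1 * p.g = p.g
        rw [one_mul]
      · show Ho G Y (cat [x₀] (p.l.map (fun v => (1 : Γ) • v))) p.l
        have e1 : p.l.map (fun v => (1 : Γ) • v) = p.l := by
          simp
        rw [e1]
        obtain ⟨l0, hl0⟩ := isW_cons p.hw
        rw [hl0]
        exact ho_refl _)
    (by
      intro p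
      induction p using Quotient.inductionOn
      rename_i p
      refine Quotient.sound ⟨?_, ?_⟩
      · show p.g⁻¹ * p.g = 1
        rw [inv_mul_cancel]
      · show Ho G Y (cat (p.l.map (fun v => p.g⁻¹ • v)).reverse (p.l.map (fun v => p.g⁻¹ • v))) [x₀]
        have := ho_cancel (Y := Y) hA (Pr.inv hadj p).hw (Pr.inv hadj p).hl
        have e : (Pr.inv hadj p).l = (p.l.map (fun v => p.g⁻¹ • v)).reverse := rfl
        rw [e, List.reverse_reverse] at this
        exact this)

end group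

end Gr

open Gr in
/-- Grid -/
theorem grid (hS : ScStatement) (hA : HomAStatement) (_ : HomBStatement) : GridStatement := by
  intro V X Γ _ _ hMS hG a b x₀ hab
  have hadj := hG.adj
  have hmap : ∀ (g : Γ) x y, X.G.Adj x y → X.G.Adj (g • x) (g • y) := fun g x y h => (hadj g x y).2 h
  obtain ⟨α, hα⟩ := exists_isW hMS.conn x₀ (a • x₀)
  obtain ⟨β, hβ⟩ := exists_isW hMS.conn x₀ (b • x₀)
  have hP : IsW X.G x₀ ((a * b) • x₀) (cat α (β.map (fun v => a • v))) := by
    rw [mul_smul]; exact isW_cat hα (isW_map _ (hmap a) hβ)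
  have hQ : IsW X.G x₀ ((a * b) • x₀) (cat β (α.map (fun v => b • v))) := by
    rw [hab, mul_smul]; exact isW_cat hβ (isW_map _ (hmap b) hα)
  have hR := isW_cat hP (isW_reverse hQ)
  obtain ⟨e, he⟩ := hS V X.G hMS.sc x₀ _ (fun _ _ _ => 0) hR
  obtain rfl := hom_zero he
  obtain ⟨N, -, -, hN⟩ := (hA V X.G Set.univ _).2.2.2.2.2.2.2.1 _ _ _ he
  obtain ⟨S, hSdef⟩ : ∃ S : Set V, S = (N : Set V) ∪ {v | v ∈ α} ∪ {v | v ∈ β} ∪ {x₀} := ⟨_, rfl⟩
  have hSfin : S.Finite := by
    rw [hSdef]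
    exact ((N.finite_toSet.union (List.finite_toSet α)).union (List.finite_toSet β)).union
      (Set.finite_singleton x₀)
  have hNS : (N : Set V) ⊆ S := by rw [hSdef]; intro v hv; simp [hv]
  have hαS : ∀ v ∈ α, v ∈ S := by rw [hSdef]; intro v hv; simp [hv]
  have hβS : ∀ v ∈ β, v ∈ S := by rw [hSdef]; intro v hv; simp [hv]
  have hxS : x₀ ∈ S := by rw [hSdef]; simp
  obtain ⟨Y, hY⟩ : ∃ Y : Set V, Y = orb2 a b S := ⟨_, rfl⟩
  have hSY : S ⊆ Y := by
    intro v hv
    rw [hY]
    exact ⟨0, 0, v, hv, by simp⟩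
  have hYa : ∀ y, a • y ∈ Y ↔ y ∈ Y := by
    intro y
    rw [hY]
    constructor
    · rintro ⟨i, j, x, hx, h⟩
      refine ⟨i - 1, j, x, hx, ?_⟩
      have h1 : y = a⁻¹ • (a • y) := (inv_smul_smul a y).symm
      rw [h1, h, smul_smul, ← mul_assoc, zpow_sub_one,
        (((Commute.refl a).zpow_left i).inv_right).eq]
    · rintro ⟨i, j, x, hx, rfl⟩
      refine ⟨i + 1, j, x, hx, ?_⟩
      rw [smul_smul, ← mul_assoc, zpow_add_one, ((Commute.refl a).zpow_left i).eq]
  have hYb : ∀ y, b • y ∈ Y ↔ y ∈ Y := by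
    have hba : ∀ i : ℤ, b * a ^ i = a ^ i * b := fun i => ((show Commute a b from hab).symm.zpow_right i).eq
    have hba' : ∀ i : ℤ, b⁻¹ * a ^ i = a ^ i * b⁻¹ := fun i =>
      ((show Commute a b from hab).symm.zpow_right i).inv_left.eq
    intro y
    rw [hY]
    constructor
    · rintro ⟨i, j, x, hx, h⟩
      refine ⟨i, j - 1, x, hx, ?_⟩
      have h1 : y = b⁻¹ • (b • y) := (inv_smul_smul b y).symm
      rw [h1, h, smul_smul, ← mul_assoc, hba', mul_assoc, zpow_sub_one,
        (((Commute.refl b).zpow_left j).inv_right).eq]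
    · rintro ⟨i, j, x, hx, rfl⟩
      refine ⟨i, j + 1, x, hx, ?_⟩
      rw [smul_smul, ← mul_assoc, hba, mul_assoc, zpow_add_one, ((Commute.refl b).zpow_left j).eq]
  letI := grp (G := X.G) (Y := Y) hadj (hSY hxS) hA
  let A₁ : Pr X.G Y Γ x₀ := ⟨a, α, hYa, fun v hv => hSY (hαS v hv), hα⟩
  let B₁ : Pr X.G Y Γ x₀ := ⟨b, β, hYb, fun v hv => hSY (hβS v hv), hβ⟩
  letI : Setoid (Pr X.G Y Γ x₀) := stp hA
  let mk : Pr X.G Y Γ x₀ → EG hA X.G Y Γ x₀ := fun p => Quotient.mk _ p
  have hmk : ∀ p q, mk (Pr.mul hadj p q) = mk p * mk q := fun p q => rfl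
  have hc : Commute (mk A₁) (mk B₁) := by
    show mk A₁ * mk B₁ = mk B₁ * mk A₁
    rw [← hmk, ← hmk]
    refine Quotient.sound ⟨hab, ?_⟩
    show Ho X.G Y (cat α (β.map (fun v => a • v))) (cat β (α.map (fun v => b • v)))
    exact ho_of_loop hA hP hQ (Pr.mul hadj A₁ B₁).hl (Pr.mul hadj B₁ A₁).hl
      (ho_mono hA (hNS.trans hSY) hN)
  -- the projection
  let fst : EG hA X.G Y Γ x₀ →* Γ := MonoidHom.mk' (Quotient.lift (fun p => p.g) (fun p q h => h.1)) (by
    intro p q
    induction p using Quotient.inductionOn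
    induction q using Quotient.inductionOn
    rfl)
  have hfst : ∀ p, fst (mk p) = p.g := fun p => rfl
  let W : ℤ → ℤ → Pr X.G Y Γ x₀ := fun i j => Quotient.out (mk A₁ ^ i * mk B₁ ^ j : EG hA X.G Y Γ x₀)
  have hWmk : ∀ i j, mk (W i j) = mk A₁ ^ i * mk B₁ ^ j := fun i j => Quotient.out_eq _
  have hWg : ∀ i j, (W i j).g = a ^ i * b ^ j := by
    intro i j
    rw [← hfst, hWmk, map_mul, map_zpow, map_zpow, hfst, hfst]
  have hWl : ∀ i j, IsW X.G x₀ ((a ^ i * b ^ j) • x₀) (W i j).l := by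
    intro i j
    rw [← hWg]
    exact (W i j).hw
  refine ⟨S, fun i j => (W i j).l, hSfin, hxS, hWl, fun i j v hv => hY ▸ (W i j).hl v hv, ?_⟩
  intro i j i' j'
  rw [← hY]
  have hcomm : mk (Pr.mul hadj (W i j) (W i' j')) = mk (Pr.mul hadj (W i' j') (W i j)) := by
    rw [hmk, hmk, hWmk, hWmk]
    have h1 : Commute (mk A₁) (mk A₁ ^ i' * mk B₁ ^ j') :=
      ((Commute.refl _).zpow_right i').mul_right (hc.zpow_right j')
    have h2 : Commute (mk B₁) (mk A₁ ^ i' * mk B₁ ^ j') :=
      (hc.symm.zpow_right i').mul_right ((Commute.refl _).zpow_right j')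
    exact ((h1.zpow_left i).mul_left (h2.zpow_left j)).eq
  have hHo : Ho X.G Y (Pr.mul hadj (W i j) (W i' j')).l (Pr.mul hadj (W i' j') (W i j)).l :=
    (Quotient.exact hcomm).2
  have e1 : (Pr.mul hadj (W i j) (W i' j')).l =
      cat (W i j).l ((W i' j').l.map (fun v => (a ^ i * b ^ j) • v)) := by
    rw [← hWg i j]; rfl
  have e2 : (Pr.mul hadj (W i' j') (W i j)).l =
      cat (W i' j').l ((W i j).l.map (fun v => (a ^ i' * b ^ j') • v)) := by
    rw [← hWg i' j']; rfl
  have w1 := (Pr.mul hadj (W i j) (W i' j')).hw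
  have w2 := (Pr.mul hadj (W i' j') (W i j)).hw
  have y1 := (Pr.mul hadj (W i j) (W i' j')).hl
  have y2 := (Pr.mul hadj (W i' j') (W i j)).hl
  have hg12 : (Pr.mul hadj (W i j) (W i' j')).g = (Pr.mul hadj (W i' j') (W i j)).g := by
    rw [← hfst, hcomm, hfst]
  have w2' := isW_map (fun v => (a ^ i' * b ^ j') • v) (hmap _) (hWl i j)
  have e3 : sq (fun v => (a ^ i' * b ^ j') • v) (W i j).l (W i' j').l
      ((W i' j').l.map (fun v => (a ^ i * b ^ j) • v)) =
      cat (Pr.mul hadj (W i j) (W i' j')).l (Pr.mul hadj (W i' j') (W i j)).l.reverse := by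
    unfold sq
    rw [e1, e2, cat_reverse (hWl i' j') w2', cat_assoc (isW_reverse w2')]
  rw [e3]
  rw [hg12] at w1
  refine ⟨?_, x₀, isW_cat w1 (isW_reverse w2), ?_⟩
  · intro v hv
    rcases mem_cat hv with h | h
    · exact y1 v h
    · exact y2 v (List.mem_reverse.1 h)
  · exact ho_trans hA (ho_cat hA w1 (isW_reverse w2) hHo (ho_refl _)) (ho_cancel hA w2 y2)

end MSG.H25
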