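import Pool.Agent.Lib.MP_acafa7_al.MS.Iface2
import Pool.Agent.Lib.MP_acafa7_al.MS.H25.Grid

/-! Module HomT: homotopies through walks with at least three vertices. -/

namespace MSG.H25

open Classical

namespace HT

variable {V : Type} {G : SimpleGraph V}

theorem stp_congr {Y : Set V} {ω : V → V → V → ZMod 2} {l l' : List V} {e : ZMod 2} (p q : List V)
    (h : Stp G Y ω l l' e) : Stp G Y ω (p ++ l ++ q) (p ++ l' ++ q) e := by
  cases h with
  | ins u v x y h1 h2 =>
    have := Stp.ins (G := G) (Y := Y) (ω := ω) (p ++ u) (v ++ q) x y h1 h2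
    simpa using this
  | del u v x y h1 =>
    have := Stp.del (G := G) (Y := Y) (ω := ω) (p ++ u) (v ++ q) x y h1
    simpa using this
  | exp u v x y z h1 h2 h3 h4 =>
    have := Stp.exp (G := G) (Y := Y) (ω := ω) (p ++ u) (v ++ q) x y z h1 h2 h3 h4
    simpa using this
  | con u v x y z h1 h2 h3 =>
    have := Stp.con (G := G) (Y := Y) (ω := ω) (p ++ u) (v ++ q) x y z h1 h2 h3
    simpa using this

theorem stp_pos {Y : Set V} {ω : V → V → V → ZMod 2} {l l' : List V} {e : ZMod 2}
    (h : Stp G Y ω l l' e) : 1 ≤ l'.length := by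
  cases h <;> simp only [List.length_append, List.length_cons] <;> omega

theorem hom3_trans {l m n : List V} (h : Hom3 G l m) (h' : Hom3 G m n) : Hom3 G l n := by
  induction h with
  | refl l => exact h'
  | step h1 h2 _ ih => exact Hom3.step h1 h2 (ih h')

theorem hom3_congr {l l' : List V} (p q : List V) (hpq : 2 ≤ p.length + q.length) {e : ZMod 2}
    (h : Hom G Set.univ (fun _ _ _ => 0) l l' e) : Hom3 G (p ++ l ++ q) (p ++ l' ++ q) := by
  induction h with
  | refl l => exact Hom3.refl _
  | step h1 _ ih =>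
    refine Hom3.step (stp_congr p q h1) ?_ ih
    have := stp_pos h1
    simp only [List.length_append]
    omega

end HT

open HT Gr in
/-- HomT -/
theorem homt (hS : ScStatement) (hA : HomAStatement) : HomTStatement := by
  intro V G _ hsc x y l l' _ hl hl' h3 h3'
  have hr := isW_reverse hl'
  -- insertion of `l'⁻¹ l'`
  have h1 : Ho G Set.univ (cat l'.reverse l') [y] := by
    have := ho_cancel (Y := Set.univ) hA hr (fun _ _ => Set.mem_univ _)
    rwa [List.reverse_reverse] at this
  have h2 : Ho G Set.univ [y] (cat l'.reverse l') :=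
    (ho_symm hA (fun _ _ => Set.mem_univ _) h1).2
  have h4 := hom3_congr (G := G) l.dropLast [] (by simp; omega) h2
  rw [List.append_nil, List.append_nil, isW_concat hl, ← cat_eq hl (isW_cat hr hl'),
    ← cat_assoc hr] at h4
  -- contraction of `l l'⁻¹`
  obtain ⟨e, he⟩ := hS V G hsc x _ (fun _ _ _ => 0) (isW_cat hl hr)
  obtain ⟨m, hm⟩ := isW_cons hl'
  have h5 := hom3_congr (G := G) [] l'.tail (by simp; omega) he
  have e1 : [] ++ cat l l'.reverse ++ l'.tail = cat (cat l l'.reverse) l' := rfl
  have e2 : [] ++ [x] ++ l'.tail = l' := by rw [hm]; rfl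
  rw [e1, e2] at h5
  exact hom3_trans h4 h5

end MSG.H25
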