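import Pool.Agent.Lib.MP_acafa7_al.MS.Iface2

/-! Module MarkEx: existence of a marked vertex. -/

namespace MSG.H25

open Classical

namespace ME

variable {D : Type} [Fintype D] (M : DMap D) (ℓ : D → ℝ) (B : Set D)

theorem wt_nonneg (d : D) : 0 ≤ M.wt ℓ B d := by
  unfold DMap.wt
  split_ifs
  · exact Real.pi_pos.le
  · exact Real.arccos_nonneg _

theorem curv_class {x y : D} (h : M.SameV x y) : M.curv ℓ B x = M.curv ℓ B y := by
  unfold DMap.curv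
  congr 1
  refine Finset.sum_congr rfl fun d _ => ?_
  have : M.SameV x d ↔ M.SameV y d :=
    ⟨fun h' => M.sameV_trans (M.sameV_symm h) h', fun h' => M.sameV_trans h h'⟩
  by_cases h' : M.SameV x d
  · rw [if_pos h', if_pos (this.1 h')]
  · rw [if_neg h', if_neg (fun h'' => h' (this.2 h''))]

/-- the weights of finitely many darts at the vertex of `x` -/
theorem curv_le (x : D) (s : Finset D) (hs : ∀ d ∈ s, M.SameV x d) :
    M.curv ℓ B x ≤ 2 * Real.pi - ∑ d ∈ s, M.wt ℓ B d := by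
  unfold DMap.curv
  have : ∑ d ∈ s, M.wt ℓ B d ≤ ∑ d : D, if M.SameV x d then M.wt ℓ B d else 0 := by
    calc ∑ d ∈ s, M.wt ℓ B d = ∑ d ∈ s, if M.SameV x d then M.wt ℓ B d else 0 :=
          Finset.sum_congr rfl fun d hd => by rw [if_pos (hs d hd)]
      _ ≤ _ := Finset.sum_le_sum_of_subset_of_nonneg (Finset.subset_univ _)
          (fun d _ _ => by split_ifs; exacts [wt_nonneg M ℓ B d, le_rfl])
  linarith

end ME

open ME in
/-- MarkEx -/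
theorem markex (hG : Gb2Statement) (hVh : VhStatement) (hAng : AngStatement) :
    MarkExStatement := by
  intro V X a C ha 𝒜 hNT
  have hann := 𝒜.ok.ann
  have hlen := 𝒜.ok.lenok
  have hoff := hann.off
  have hoff3 : 𝒜.M.toDMap.Off3 {d | d ∈ 𝒜.P ∨ d ∈ 𝒜.Q} :=
    ⟨hoff.1, fun d hd => (hoff.2 d hd).1⟩
  rcases hG 𝒜.D 𝒜.M.toDMap 𝒜.ℓ 𝒜.P 𝒜.Q hann.planar hann.faceP hann.faceQ hann.disj hoff3 hlen with
    ⟨d, hd⟩ | h0
  · change 0 < 𝒜.M.curv 𝒜.ℓ (annB 𝒜.P 𝒜.Q) d at hd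
    have hex : ∃ b, 𝒜.M.SameV d b ∧ b ∈ annB 𝒜.P 𝒜.Q := by
      by_contra hne
      push Not at hne
      have := 𝒜.ok.npc d hne
      linarith
    obtain ⟨b, hdb, hb⟩ := hex
    refine ⟨b, hb, ?_, ?_⟩
    · intro b' hb' hbb'
      by_contra hne
      have h1 := curv_le 𝒜.M.toDMap 𝒜.ℓ (annB 𝒜.P 𝒜.Q) b {b, b'} (by
        intro x hx
        rw [Finset.mem_insert, Finset.mem_singleton] at hx
        rcases hx with rfl | rfl
        · exact 𝒜.M.sameV_refl _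
        · exact hbb')
      rw [Finset.sum_pair (Ne.symm hne)] at h1
      have w1 : 𝒜.M.wt 𝒜.ℓ (annB 𝒜.P 𝒜.Q) b = Real.pi := by
        unfold DMap.wt; rw [if_pos hb]
      have w2 : 𝒜.M.wt 𝒜.ℓ (annB 𝒜.P 𝒜.Q) b' = Real.pi := by
        unfold DMap.wt; rw [if_pos hb']
      rw [w1, w2, ← curv_class _ _ _ hdb] at h1
      linarith
    · rw [← curv_class _ _ _ hdb]; exact hd.le
  · -- all curvatures vanish
    have hexp : ∃ p ∈ 𝒜.P, 𝒜.M.ι p ∉ 𝒜.P := by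
      by_contra hne
      push Not at hne
      obtain ⟨S, hS⟩ : ∃ S : Set 𝒜.D, ∀ d, d ∈ S ↔ d ∈ 𝒜.P := ⟨{d | d ∈ 𝒜.P}, fun d => Iff.rfl⟩
      have h1 := hVh V 𝒜.D a ha.free 𝒜.M S (by
        intro d hd
        rw [hS] at hd
        rw [hS, hS]
        refine ⟨?_, hne d hd⟩
        have h2 : 𝒜.M.φ d ∈ 𝒜.P.map 𝒜.M.φ := List.mem_map_of_mem hd
        rw [hann.faceP.2.2] at h2
        exact List.mem_rotate.1 h2)
      have h2 : ∑ d : 𝒜.D, (if d ∈ S then 𝒜.M.h d else 0) = 𝒜.M.hol 𝒜.P := by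
        unfold LMap.hol
        rw [← List.sum_toFinset _ hann.faceP.2.1, ← Finset.sum_filter]
        refine Finset.sum_congr ?_ fun _ _ => rfl
        ext d
        simp [hS]
      rw [h2, hann.holP] at h1
      rcases hann.eps with h | h <;> rw [h] at h1 <;> norm_num at h1
    obtain ⟨p, hp, hιp⟩ := hexp
    have hφp : 𝒜.M.φ p ∈ 𝒜.P := by
      have h2 : 𝒜.M.φ p ∈ 𝒜.P.map 𝒜.M.φ := List.mem_map_of_mem hp
      rw [hann.faceP.2.2] at h2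
      exact List.mem_rotate.1 h2
    have hsame : 𝒜.M.SameV (𝒜.M.φ p) (𝒜.M.ι p) := 𝒜.M.sameV_step p
    have hιQ : 𝒜.M.ι p ∉ 𝒜.Q := fun h => hNT _ hφp _ h hsame
    obtain ⟨d, hd⟩ : ∃ d, d = 𝒜.M.ι p := ⟨_, rfl⟩
    have hdB : d ∉ annB 𝒜.P 𝒜.Q := by
      rw [hd]
      rintro (h | h)
      · exact hιp h
      · exact hιQ h
    -- the angle at `d` is positive
    have hT := (hoff.2 d hdB).1.1
    have hd1 : 𝒜.M.φ d ∉ annB 𝒜.P 𝒜.Q := fun h => hdB (by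
      have := hoff.1 _ (hoff.1 _ h)
      rwa [hT] at this)
    have hd2 : 𝒜.M.φ (𝒜.M.φ d) ∉ annB 𝒜.P 𝒜.Q := fun h => hdB (by
      have := hoff.1 _ h
      rwa [hT] at this)
    have i1 := hlen.2.2 _ hdB
    have i2 := hlen.2.2 _ hd1
    have i3 := hlen.2.2 _ hd2
    rw [hT] at i2 i3
    have hth : 0 < 𝒜.M.th 𝒜.ℓ d :=
      (hAng (𝒜.ℓ d) (𝒜.ℓ (𝒜.M.φ (𝒜.M.φ d))) (𝒜.ℓ (𝒜.M.φ d)) (hlen.1 _) (hlen.1 _) (hlen.1 _)
        (by linarith) (by linarith) (by linarith)).1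
    have hwd : 𝒜.M.wt 𝒜.ℓ (annB 𝒜.P 𝒜.Q) d = 𝒜.M.th 𝒜.ℓ d := by
      unfold DMap.wt; rw [if_neg hdB]
    have hc0 : 𝒜.M.curv 𝒜.ℓ (annB 𝒜.P 𝒜.Q) (𝒜.M.φ p) = 0 := h0 _
    refine ⟨𝒜.M.φ p, Or.inl hφp, ?_, hc0.ge⟩
    intro b hb hbb
    by_contra hne
    have hdφ : d ≠ 𝒜.M.φ p := fun h => hdB (h ▸ Or.inl hφp)
    have hdb : d ≠ b := fun h => hdB (h ▸ hb)
    have h1 := curv_le 𝒜.M.toDMap 𝒜.ℓ (annB 𝒜.P 𝒜.Q) (𝒜.M.φ p) {d, b, 𝒜.M.φ p} (by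
      intro x hx
      rw [Finset.mem_insert, Finset.mem_insert, Finset.mem_singleton] at hx
      rcases hx with rfl | rfl | rfl
      · rw [hd]; exact hsame
      · exact hbb
      · exact 𝒜.M.sameV_refl _)
    rw [Finset.sum_insert (by simp [hdφ, hdb]), Finset.sum_pair hne] at h1
    have w1 : 𝒜.M.wt 𝒜.ℓ (annB 𝒜.P 𝒜.Q) (𝒜.M.φ p) = Real.pi := by
      have : 𝒜.M.φ p ∈ annB 𝒜.P 𝒜.Q := Or.inl hφp
      unfold DMap.wt; rw [if_pos this]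
    have w2 : 𝒜.M.wt 𝒜.ℓ (annB 𝒜.P 𝒜.Q) b = Real.pi := by
      unfold DMap.wt; rw [if_pos hb]
    rw [w1, w2, hwd, hc0] at h1
    linarith

end MSG.H25
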