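import Pool.Agent.Lib.MP_acafa7_al.MS.Iface2

/-! Module ToMA: annuli in the complex with nonpositive interior curvature are metric annuli. -/

namespace MSG.H25

open Classical

namespace TM

variable {V : Type} {X : Cx V} {a : Equiv.Perm V}

theorem zpow_apply (s t : ℤ) (x : V) : (a ^ s) ((a ^ t) x) = (a ^ (s + t)) x := by
  rw [zpow_add]; rfl

theorem adj_zpow (ha : FreeAut X a) (x y : V) (n : ℤ) :
    X.G.Adj ((a ^ n) x) ((a ^ n) y) ↔ X.G.Adj x y := by
  induction n generalizing x y with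
  | zero => simp
  | succ n ih => rw [zpow_add, zpow_one]; exact (ih (a x) (a y)).trans (ha.adj x y)
  | pred n ih =>
    rw [zpow_sub, zpow_one]
    refine (ih (a⁻¹ x) (a⁻¹ y)).trans ?_
    rw [← ha.adj]
    simp

theorem len_zpow (ha : FreeAut X a) (x y : V) (n : ℤ) :
    X.len ((a ^ n) x) ((a ^ n) y) = X.len x y := by
  induction n generalizing x y with
  | zero => simp
  | succ n ih => rw [zpow_add, zpow_one]; exact (ih (a x) (a y)).trans (ha.len x y)
  | pred n ih =>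
    rw [zpow_sub, zpow_one]
    refine (ih (a⁻¹ x) (a⁻¹ y)).trans ?_
    rw [← ha.len]
    simp

theorem dist_zpow_le (ha : FreeAut X a) (hc : X.G.Connected) (x y : V) (n : ℤ) :
    X.G.dist ((a ^ n) x) ((a ^ n) y) ≤ X.G.dist x y := by
  obtain ⟨p, hp⟩ := hc.exists_walk_length_eq_dist x y
  let f : X.G →g X.G := ⟨(a ^ n : Equiv.Perm V), fun {u v} h => (adj_zpow ha u v n).2 h⟩
  rw [← hp, ← p.length_map f]
  exact X.G.dist_le _

theorem dist_zpow (ha : FreeAut X a) (hc : X.G.Connected) (x y : V) (n : ℤ) :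
    X.G.dist ((a ^ n) x) ((a ^ n) y) = X.G.dist x y := by
  refine le_antisymm (dist_zpow_le ha hc x y n) ?_
  have := dist_zpow_le ha hc ((a ^ n) x) ((a ^ n) y) (-n)
  rwa [zpow_apply, zpow_apply, neg_add_cancel, zpow_zero, Equiv.Perm.one_apply,
    Equiv.Perm.one_apply] at this

theorem sh_eE (ha : FreeAut X a) (hc : X.G.Connected) (n : ℤ) (x y : V) (s : ℝ) :
    sh a n (eE X x y s) = eE X ((a ^ n) x) ((a ^ n) y) s := by
  funext z
  unfold sh eE
  have h : ∀ u : V, X.G.dist u ((a ^ (-n)) z) = X.G.dist ((a ^ n) u) z := by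
    intro u
    rw [← dist_zpow ha hc u ((a ^ (-n)) z) n, zpow_apply, add_neg_cancel, zpow_zero,
      Equiv.Perm.one_apply]
  rw [h, h, len_zpow ha]

end TM

open TM in
/-- ToMA -/
theorem toma : ToMAStatement := by
  intro V D _ X a C Λ hM hc ha hG M P Q ε hann hadj hcurv
  -- labels
  have hfι : ∀ d, M.f (M.ι d) = (a ^ (-M.γ d)) (M.t d) := by
    intro d
    unfold LMap.t
    rw [zpow_apply, neg_add_cancel, zpow_zero, Equiv.Perm.one_apply]
  have htι : ∀ d, M.t (M.ι d) = (a ^ (-M.γ d)) (M.f d) := by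
    intro d
    unfold LMap.t
    rw [M.ιι, M.γι]
  have ht : ∀ d, M.t d = (a ^ M.h d) (M.f (M.φ d)) := fun d => M.tgt d
  have hlen : ∀ d, M.lenM X (M.ι d) = M.lenM X d := by
    intro d
    unfold LMap.lenM
    rw [hfι, htι, len_zpow ha, hM.symm]
  -- triangles
  have htri : ∀ d, d ∉ annB P Q →
      ∃ x y z, M.f d = x ∧ M.t d = y ∧ (a ^ M.h d) (M.f (M.φ d)) = y ∧
        (a ^ M.h d) (M.t (M.φ d)) = z ∧ (a ^ (M.h d + M.h (M.φ d))) (M.f (M.φ (M.φ d))) = z ∧
        (a ^ (M.h d + M.h (M.φ d))) (M.t (M.φ (M.φ d))) = x ∧ X.G.Adj x y ∧ X.G.Adj y z ∧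
        X.G.Adj z x ∧ M.lenM X d = X.len x y ∧ M.lenM X (M.φ d) = X.len y z ∧
        M.lenM X (M.φ (M.φ d)) = X.len z x := by
    intro d hd
    obtain ⟨⟨h3, -⟩, hh⟩ := hann.off.2 d hd
    refine ⟨M.f d, M.t d, (a ^ M.h d) (M.t (M.φ d)), rfl, rfl, (ht d).symm, rfl, ?_, ?_, hadj d,
      ?_, ?_, rfl, ?_, ?_⟩
    · rw [ht (M.φ d), zpow_apply]
    · rw [ht (M.φ (M.φ d)), zpow_apply, h3, hh, zpow_zero, Equiv.Perm.one_apply]
    · rw [ht d, adj_zpow ha]; exact hadj _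
    · rw [ht (M.φ d), zpow_apply]
      have e : M.f d = (a ^ (M.h d + M.h (M.φ d))) (M.t (M.φ (M.φ d))) := by
        rw [ht (M.φ (M.φ d)), zpow_apply, h3, hh, zpow_zero, Equiv.Perm.one_apply]
      rw [e, adj_zpow ha]
      exact hadj _
    · rw [ht d, len_zpow ha]; rfl
    · rw [ht (M.φ d), zpow_apply]
      have e : M.f d = (a ^ (M.h d + M.h (M.φ d))) (M.t (M.φ (M.φ d))) := by
        rw [ht (M.φ (M.φ d)), zpow_apply, h3, hh, zpow_zero, Equiv.Perm.one_apply]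
      rw [e, len_zpow ha]
      rfl
  have hpos : ∀ d, 0 < M.lenM X d := fun d => hM.pos _ _ (hadj d)
  refine ⟨hann, ⟨hpos, hlen, ?_⟩, ?_, ?_, ?_, ?_, hcurv⟩
  · intro d hd
    obtain ⟨x, y, z, -, -, -, -, -, -, hxy, hyz, hzx, l1, l2, l3⟩ := htri d hd
    rw [l1, l2, l3]
    have := hM.tri y x z hxy.symm hzx.symm hyz
    rwa [hM.symm y x, hM.symm x z] at this
  · intro d
    funext z
    simp [eE, kap]
  · intro d s h0 h1
    show sh a (M.γ d) (eE X (M.f (M.ι d)) (M.t (M.ι d)) s) = eE X (M.f d) (M.t d) (M.lenM X d - s)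
    rw [sh_eE ha hc, hfι, htι, zpow_apply, zpow_apply, add_neg_cancel, zpow_zero,
      Equiv.Perm.one_apply, Equiv.Perm.one_apply]
    funext z
    unfold eE
    have hl := (hpos d).ne'
    unfold LMap.lenM at hl ⊢
    rw [hM.symm (M.t d) (M.f d)]
    field_simp
    ring
  · intro d s s' h1 h2 h3 h4 z
    exact hG.lip _ _ (hadj d) s s' h1 h2 h3 h4 z
  · intro d hd
    obtain ⟨x, y, z, h1, h2, h3, h4, h5, h6, hxy, hyz, hzx, l1, l2, l3⟩ := htri d hd
    have := hG.fil x y z hxy hyz hzx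
    simp only [sh_eE ha hc]
    rw [l1, l2, l3, h1, h2, h3, h4, h5, h6]
    exact this

end MSG.H25
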