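import Pool.Agent.Lib.MP_acafa7_al.MS.Iface1

/-! Module AddE: an edge cutting off a triangle. -/

namespace MSG.H25

open Classical

variable {V D : Type} [Fintype D] {a : Equiv.Perm V}

namespace AE

/-- the new face permutation as a function -/
noncomputable def phi (M : DMap D) (r : D) : D ⊕ Bool → D ⊕ Bool
  | .inl x => if x = M.φ r then .inr true else if M.φ x = r then .inr false else .inl (M.φ x)
  | .inr true => .inl r
  | .inr false => if M.φ (M.φ r) = r then .inr false else .inl (M.φ (M.φ r))

theorem phi_inj (M : DMap D) {r : D} (hr : M.φ r ≠ r) : Function.Injective (phi M r) := by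
  have inj := M.φ.injective
  have h1 : M.φ (M.φ r) ≠ M.φ r := fun h => hr (inj h)
  rintro (x | b) (y | b') h
  · simp only [phi] at h
    split_ifs at h <;> grind
  · cases b' <;> simp only [phi] at h <;> split_ifs at h <;> grind
  · cases b <;> simp only [phi] at h <;> split_ifs at h <;> grind
  · cases b <;> cases b' <;> simp only [phi] at h <;> grind

noncomputable def Phi (M : DMap D) {r : D} (hr : M.φ r ≠ r) : Equiv.Perm (D ⊕ Bool) :=
  Equiv.ofBijective (phi M r) (Finite.injective_iff_bijective.1 (phi_inj M hr))

theorem Phi_apply (M : DMap D) {r : D} (hr : M.φ r ≠ r) (x : D ⊕ Bool) :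
    Phi M hr x = phi M r x := rfl

/-- the new edge involution -/
def io (M : DMap D) : Equiv.Perm (D ⊕ Bool) where
  toFun := Sum.map M.ι not
  invFun := Sum.map M.ι not
  left_inv := by rintro (x | b) <;> simp [M.ιι]
  right_inv := by rintro (x | b) <;> simp [M.ιι]

theorem io_inl (M : DMap D) (x : D) : io M (.inl x) = .inl (M.ι x) := rfl
theorem io_inr (M : DMap D) (b : Bool) : io M (.inr b) = .inr (!b) := rfl

/-- the new map -/
noncomputable def map' (M : DMap D) {r : D} (hr : M.φ r ≠ r) : DMap (D ⊕ Bool) where
  φ := Phi M hr
  ι := io M
  ιι := by rintro (x | b) <;> simp [io_inl, io_inr, M.ιι]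
  ne := by rintro (x | b) <;> simp [io_inl, io_inr, M.ne]

/-- extension of an invariant function -/
def extF {α : Type*} (M : DMap D) (r : D) (h : D → α) : D ⊕ Bool → α
  | .inl x => h x
  | .inr false => h r
  | .inr true => h (M.φ (M.φ r))

theorem extF_inv {α : Type*} (M : DMap D) {r : D} (hr : M.φ r ≠ r) (h : D → α)
    (hh : ∀ d, h (M.φ d) = h (M.ι d)) (d : D ⊕ Bool) :
    extF M r h ((map' M hr).φ d) = extF M r h ((map' M hr).ι d) := by
  change extF M r h (phi M r d) = extF M r h (io M d)
  rcases d with x | b
  · simp only [phi, io_inl]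
    split_ifs with h2 h3
    · subst h2; simp only [extF]; exact hh _
    · simp only [extF]; rw [← hh, h3]
    · simp only [extF]; exact hh _
  · cases b
    · simp only [phi, io_inr]
      split_ifs with h2
      · simp only [extF, Bool.not_false, h2]
      · simp only [extF, Bool.not_false]
    · simp only [phi, io_inr, extF, Bool.not_true]

/-- invariant functions of the new map -/
theorem new_inv {α : Type*} (M : DMap D) {r : D} (hr : M.φ r ≠ r) (h : D ⊕ Bool → α)
    (hh : ∀ d, h ((map' M hr).φ d) = h ((map' M hr).ι d)) :
    h (.inr false) = h (.inl r) ∧ h (.inr true) = h (.inl (M.φ (M.φ r))) ∧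
      ∀ d, h (.inl (M.φ d)) = h (.inl (M.ι d)) := by
  change ∀ d, h (phi M r d) = h (io M d) at hh
  have e1 := hh (.inr true)
  have e2 := hh (.inr false)
  simp only [phi, io_inr, Bool.not_true, Bool.not_false] at e1 e2
  have e3 : h (.inr true) = h (.inl (M.φ (M.φ r))) := by
    split_ifs at e2 with h2
    · rw [← e2, ← e1, h2]
    · exact e2.symm
  refine ⟨e1.symm, e3, ?_⟩
  intro x
  have e4 := hh (.inl x)
  simp only [phi, io_inl] at e4
  split_ifs at e4 with h2 h3
  · rw [← e4, h2, e3]
  · rw [← e4, h3, e1]
  · exact e4

theorem planar' (M : DMap D) {r : D} (hr : M.φ r ≠ r) (hP : M.Planar) : (map' M hr).Planar := by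
  intro k hk
  change ∀ d, k (phi M r (io M d)) + k (io M d) = k (phi M r d) + k d at hk
  have inj := M.φ.injective
  have h1 : M.φ (M.φ r) ≠ M.φ r := fun h => hr (inj h)
  set k₀ : D → ZMod 2 := fun x => if x = r then k (.inr false) else if x = M.φ r then
    k (.inl (M.φ r)) + k (.inl r) + k (.inr false) else k (.inl x) with hk₀
  -- the relation at the new edge
  have hn := hk (.inr false)
  simp only [phi, io_inr, Bool.not_false] at hn
  have key : ∀ x, k₀ (M.φ x) + k₀ x = k (phi M r (.inl x)) + k (.inl x) := by
    intro x
    simp only [hk₀, phi]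
    by_cases hx : x = M.φ r
    · subst hx
      rw [if_pos rfl, if_neg hr, if_pos rfl]
      by_cases hs : M.φ (M.φ r) = r
      · rw [if_pos hs]
        rw [if_pos hs] at hn
        grind
      · rw [if_neg hs, if_neg h1]
        rw [if_neg hs] at hn
        grind
    · rw [if_neg hx]
      by_cases hx2 : M.φ x = r
      · rw [if_pos hx2, if_pos hx2]
        have : x ≠ r := by rintro rfl; exact hr hx2
        rw [if_neg this, if_neg hx]
      · rw [if_neg hx2, if_neg hx2]
        by_cases hx3 : x = r
        · subst hx3
          rw [if_pos rfl, if_pos rfl]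
          grind
        · rw [if_neg hx3, if_neg hx, if_neg (fun h => hx3 (inj h))]
  obtain ⟨h, hh1, hh2⟩ := hP k₀ (by
    intro d
    rw [key, key]
    exact hk (.inl d))
  refine ⟨extF M r h, extF_inv M hr h hh1, ?_⟩
  have hinv := extF_inv M hr h hh1
  change ∀ d, extF M r h (phi M r d) = extF M r h (io M d) at hinv
  have c1 : ∀ x, k (phi M r (.inl x)) + extF M r h (phi M r (.inl x)) =
      k (.inl x) + extF M r h (.inl x) := by
    intro x
    have e1 := key x
    have e2 := hh2 x
    have e3 := hinv (.inl x)
    rw [io_inl] at e3
    simp only [extF] at e3 ⊢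
    rw [← hh1] at e3
    rw [e3]
    grind
  change ∀ d, k (phi M r d) + extF M r h (phi M r d) = k d + extF M r h d
  have c2 : k (.inl r) + extF M r h (.inl r) = k (.inr true) + extF M r h (.inr true) := by
    have e1 := c1 r
    have e2 := c1 (M.φ r)
    simp only [phi, if_neg (Ne.symm hr), if_neg hr, if_true] at e1 e2
    rw [← e1, ← e2]
  rintro (x | b)
  · exact c1 x
  · cases b
    · have e1 := hinv (.inr false)
      rw [io_inr, Bool.not_false] at e1
      rw [e1]
      have e4 : extF M r h (.inr false) = extF M r h (.inl r) := rfl
      have e5 : k (phi M r (.inr false)) + k (.inr false) = k (.inl r) + k (.inr true) := by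
        simp only [phi]; exact hn.symm
      rw [e4]
      grind
    · simpa only [phi] using c2

end AE

open AE in
/-- AddE -/
theorem adde : AddEStatement := by
  intro V D _ a M r hr
  refine ⟨D ⊕ Bool, inferInstance,
    { toDMap := map' M.toDMap hr
      f := fun d => match d with
        | .inl x => M.f x
        | .inr false => M.f r
        | .inr true => M.f (M.φ (M.φ r))
      γ := fun d => match d with
        | .inl x => M.γ x
        | .inr false => M.h r + M.h (M.φ r)
        | .inr true => -(M.h r + M.h (M.φ r))
      h := fun d => match d with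
        | .inl x => M.h x
        | .inr false => M.h r + M.h (M.φ r)
        | .inr true => -(M.h r + M.h (M.φ r))
      γι := by
        rintro (x | b)
        · exact M.γι x
        · cases b
          · rfl
          · exact (neg_neg _).symm
      tgt := by
        rintro (x | b)
        · change (a ^ M.γ x) (M.f (M.ι x)) = (a ^ M.h x) (_ : V)
          rw [M.tgt]
          congr 1
          change _ = (match phi M.toDMap r (.inl x) with
            | .inl x => M.f x
            | .inr false => M.f r
            | .inr true => M.f (M.φ (M.φ r)))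
          simp only [phi]
          split_ifs with h1 h2
          · subst h1; rfl
          · exact congrArg _ h2
          · rfl
        · cases b
          · change (a ^ (M.h r + M.h (M.φ r))) (M.f (M.φ (M.φ r))) =
              (a ^ (M.h r + M.h (M.φ r))) (match phi M.toDMap r (.inr false) with
            | .inl x => M.f x
            | .inr false => M.f r
            | .inr true => M.f (M.φ (M.φ r)))
            congr 1
            simp only [phi]
            split_ifs with h1
            · exact congrArg _ h1
            · rfl
          · rfl },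
    Sum.inl, .inr false, .inr true, Sum.inl_injective, by simp, by simp, ?_, ?_, rfl, ?_, ?_, rfl,
    ?_, rfl, rfl, rfl, rfl, rfl, ?_, ?_, ?_, ?_⟩
  · rintro (x | b)
    · exact Or.inr (Or.inr ⟨x, rfl⟩)
    · cases b
      · exact Or.inl rfl
      · exact Or.inr (Or.inl rfl)
  · intro x; rfl
  · rfl
  · intro x; rfl
  · intro x; exact ⟨rfl, rfl, rfl⟩
  · intro x y
    constructor
    · intro H h hh
      have := H (extF M.toDMap r h)
        (fun d => (iff_of_eq (extF_inv M.toDMap hr h (fun d => propext (hh d)) d)))
      exact this
    · intro H h hh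
      have := (new_inv M.toDMap hr h (fun d => propext (hh d))).2.2
      exact H (fun x => h (.inl x)) (fun d => iff_of_eq (this d))
  · intro h hh
    exact iff_of_eq (new_inv M.toDMap hr h (fun d => propext (hh d))).1
  · intro h hh
    exact iff_of_eq (new_inv M.toDMap hr h (fun d => propext (hh d))).2.1
  · exact planar' M.toDMap hr

end MSG.H25
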