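import Pool.Agent.Lib.MP_acafa7_al.MS.Iface1

/-! Module StepC: cutting off a triangle. -/

namespace MSG.H25

open Classical

namespace SC

theorem chain_iff {D : Type} (φ : D → D) : ∀ (x : D) (l : List D) (z : D),
    (x :: l).map φ = l ++ [z] ↔ List.IsChain (fun a b => φ a = b) (x :: (l ++ [z]))
  | x, [], z => by simp
  | x, y :: l, z => by
    rw [List.map_cons, List.cons_append, List.cons.injEq, chain_iff φ y l z, List.isChain_cons_cons]

theorem face_iff {D : Type} (M : DMap D) (x : D) (l : List D) :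
    M.IsFace (x :: l) ↔ (x :: l).Nodup ∧ List.IsChain (fun a b => M.φ a = b) (x :: (l ++ [x])) := by
  unfold DMap.IsFace
  rw [List.rotate_cons_succ, List.rotate_zero, chain_iff]
  simp

theorem face_rotate {D : Type} {M : DMap D} {l : List D} (h : M.IsFace l) (k : ℕ) :
    M.IsFace (l.rotate k) := by
  obtain ⟨h1, h2, h3⟩ := h
  refine ⟨by simpa using h1, List.nodup_rotate.2 h2, ?_⟩
  rw [List.map_rotate, h3, List.rotate_rotate, List.rotate_rotate, Nat.add_comm]

variable {V D : Type} {a : Equiv.Perm V}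

theorem wkA_append (M : LMap V D a) : ∀ (s : ℤ) (l l' : List D),
    M.wkA s (l ++ l') = M.wkA s l ++ M.wkA (s + M.hol l) l'
  | s, [], l' => by simp [LMap.wkA, LMap.hol]
  | s, r :: l, l' => by
    simp only [LMap.wkA, List.cons_append, wkA_append M _ l l', LMap.hol, List.map_cons,
      List.sum_cons, add_assoc]

theorem wkA_length (M : LMap V D a) : ∀ (s : ℤ) (l : List D), (M.wkA s l).length = l.length
  | s, [] => rfl
  | s, r :: l => by simp [LMap.wkA, wkA_length M _ l]

theorem wk_eq (M : LMap V D a) (r : D) (l : List D) : M.wk (r :: l) = M.f r :: M.wkA 0 (r :: l) :=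
  rfl

theorem t_eq (M : LMap V D a) (d : D) : M.t d = (a ^ M.h d) (M.f (M.φ d)) := M.tgt d

theorem zpow_apply (s t : ℤ) (x : V) : (a ^ s) ((a ^ t) x) = (a ^ (s + t)) x := by
  rw [zpow_add]; rfl

theorem last_aux (M : LMap V D a) : ∀ (s : ℤ) (b : D) (A : List D) (r : D),
    List.IsChain (fun a b => M.φ a = b) (b :: (A ++ [r])) →
    ((a ^ s) (M.t b) :: M.wkA (s + M.h b) A).getLast? =
      some ((a ^ (s + M.h b + M.hol A)) (M.f r))
  | s, b, [], r, hc => by
    simp only [List.nil_append, List.isChain_cons_cons] at hc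
    simp [LMap.wkA, LMap.hol, t_eq, hc.1, zpow_apply]
  | s, b, b' :: A, r, hc => by
    rw [List.cons_append, List.isChain_cons_cons] at hc
    have := last_aux M (s + M.h b) b' A r hc.2
    simp only [LMap.wkA, List.getLast?_cons_cons]
    rw [this]
    simp only [LMap.hol, List.map_cons, List.sum_cons, add_assoc]

theorem adj_zpow {X : Cx V} (ha : FreeAut X a) (x y : V) (n : ℤ) :
    X.G.Adj ((a ^ n) x) ((a ^ n) y) ↔ X.G.Adj x y := by
  induction n generalizing x y with
  | zero => simp
  | succ n ih => rw [zpow_add, zpow_one]; exact (ih (a x) (a y)).trans (ha.adj x y)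
  | pred n ih =>
    rw [zpow_sub, zpow_one]
    refine (ih (a⁻¹ x) (a⁻¹ y)).trans ?_
    rw [← ha.adj]
    simp

theorem wk_split (M : LMap V D a) (A : List D) (r : D) (l : List D) :
    M.wk (A ++ r :: l) = (M.f ((A ++ [r]).head (by simp)) :: M.wkA 0 A) ++
      M.wkA (M.hol A) (r :: l) := by
  cases A with
  | nil => simp [LMap.wk, LMap.wkA, LMap.hol]
  | cons b A =>
    rw [List.cons_append, wk_eq, ← List.cons_append, wkA_append, zero_add]
    simp

theorem chain_map {D' : Type} (φ : D → D) (φ' : D' → D') (j : D → D') (r q : D) (n : D')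
    (h1 : ∀ x, x ≠ q → φ x = r → φ' (j x) = n)
    (h2 : ∀ x, x ≠ q → φ x ≠ r → φ' (j x) = j (φ x)) :
    ∀ (x : D) (l : List D), (∀ y ∈ x :: l, y ≠ q) → (∀ y ∈ l, y ≠ r) →
      List.IsChain (fun a b => φ a = b) (x :: (l ++ [r])) →
      List.IsChain (fun a b => φ' a = b) (j x :: (l.map j ++ [n]))
  | x, [], hq, hr, h => by
    simp only [List.nil_append, List.isChain_cons_cons, List.map_nil] at h ⊢
    exact ⟨h1 x (hq x (by simp)) h.1, by simp⟩
  | x, y :: l, hq, hr, h => by
    simp only [List.cons_append, List.isChain_cons_cons, List.map_cons] at h ⊢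
    refine ⟨?_, ?_⟩
    · rw [h2 x (hq x (by simp)) (by rw [h.1]; exact hr y (by simp)), h.1]
    · have := chain_map φ φ' j r q n h1 h2 y l (fun y' hy' => hq y' (by simp [List.mem_cons] at hy' ⊢; tauto))
        (fun y' hy' => hr y' (by simp [hy'])) h.2
      simpa using this

theorem adj_iota {X : Cx V} (ha : FreeAut X a) (M : LMap V D a) (d : D) :
    X.G.Adj (M.f (M.ι d)) (M.t (M.ι d)) ↔ X.G.Adj (M.f d) (M.t d) := by
  unfold LMap.t
  rw [M.ιι, M.γι, ← adj_zpow ha _ _ (M.γ d), zpow_apply, add_neg_cancel, zpow_zero,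
    Equiv.Perm.one_apply, SimpleGraph.adj_comm]

end SC

open SC in
/-- StepC -/
theorem stepc (hA : AddEStatement) : StepCStatement := by
  intro V D _ X a ha M R Y ω u v x y z hω hP hAdj hxz hlen ⟨hF, c, hw, hc⟩
  -- decomposition of `R`
  have hRne : R ≠ [] := hF.1
  have hRlen : R.length = u.length + v.length + 2 := by
    obtain ⟨r0, R1, rfl⟩ := List.exists_cons_of_ne_nil hRne
    have := congrArg List.length hw
    rw [wk_eq, List.length_cons, wkA_length] at this
    simp only [List.length_map, List.length_append, List.length_cons] at this ⊢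
    omega
  obtain ⟨A, R2, rfl, hAl⟩ : ∃ A R2, R = A ++ R2 ∧ A.length = u.length :=
    ⟨R.take u.length, R.drop u.length, (List.take_append_drop _ _).symm, by simp; omega⟩
  have hR2 : R2.length = v.length + 2 := by
    rw [List.length_append] at hRlen; omega
  obtain ⟨r, R3, rfl⟩ : ∃ r R3, R2 = r :: R3 := List.exists_cons_of_length_pos (by omega)
  obtain ⟨q, B, rfl⟩ : ∃ q B, R3 = q :: B :=
    List.exists_cons_of_length_pos (by simp only [List.length_cons] at hR2; omega)
  have hBl : B.length = v.length := by simp only [List.length_cons] at hR2; omega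
  -- the face rotated
  have hrot := face_rotate hF A.length
  rw [List.rotate_append_length_eq] at hrot
  have hrot' : M.IsFace (r :: q :: (B ++ A)) := by simpa using hrot
  obtain ⟨hnd, hch⟩ := (face_iff M.toDMap _ _).1 hrot'
  simp only [List.cons_append, List.isChain_cons_cons] at hch
  obtain ⟨hrq, hch⟩ := hch
  have hqr : q ≠ r := by
    intro h
    rw [h] at hnd
    simp at hnd
  have hφr : M.φ r ≠ r := by rw [hrq]; exact hqr
  obtain ⟨D', _, M', j, n, n', hj, hnn, hjn, hcov, hφ, hφn', hφn, hι, hιn, hfgh, hfn, hfn', hγn,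
    hhn, hhn', hsv, hsvn, hsvn', hpl⟩ := hA V D a M r hφr
  -- the third vertex
  obtain ⟨s, C', hC⟩ : ∃ s C', B ++ A = s :: C' := by
    apply List.exists_cons_of_length_pos
    simp only [List.length_append, List.length_cons] at hlen ⊢
    omega
  rw [hC] at hch hnd
  have hqs : M.φ q = s := by
    simp only [List.cons_append, List.isChain_cons_cons] at hch
    exact hch.1
  have hsr : s ≠ r := by
    rintro rfl
    simp at hnd
  have hφφ : M.φ (M.φ r) = s := by rw [hrq, hqs]
  have hnA : ∀ x, j x ≠ n := fun x => (hjn x).1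
  have hnA' : ∀ x, j x ≠ n' := fun x => (hjn x).2
  rw [hφφ, if_neg hsr] at hφn
  rw [hφφ] at hfn'
  have hmem : ∀ x, x ∈ A ++ r :: q :: B ↔ x = r ∨ x = q ∨ x ∈ s :: C' := by
    intro x
    rw [← hC]
    simp only [List.mem_append, List.mem_cons]
    tauto
  -- the new face
  have hcomm : ∀ x, x ∈ A ∨ x ∈ B ↔ x ∈ s :: C' := by
    intro x; rw [← hC]; simp only [List.mem_append]; tauto
  have hq' : ∀ y ∈ s :: C', y ≠ q ∧ y ≠ r := by
    intro y hy
    simp only [List.nodup_cons] at hnd
    refine ⟨?_, ?_⟩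
    · rintro rfl; exact hnd.2.1 hy
    · rintro rfl; exact hnd.1 (List.mem_cons_of_mem _ hy)
  have hface1 : M'.IsFace (n :: (B ++ A).map j) := by
    rw [face_iff, hC]
    refine ⟨?_, ?_⟩
    · rw [List.nodup_cons]
      refine ⟨?_, ?_⟩
      · intro h
        obtain ⟨x, -, hx⟩ := List.mem_map.1 h
        exact hnA x hx
      · refine List.Nodup.map hj ?_
        simp only [List.nodup_cons] at hnd ⊢
        exact hnd.2.2
    · rw [List.map_cons, List.cons_append, List.isChain_cons_cons]
      refine ⟨hφn, ?_⟩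
      refine chain_map M.φ M'.φ j r q n ?_ ?_ s C' (fun y hy => (hq' y hy).1)
        (fun y hy => (hq' y (List.mem_cons_of_mem _ hy)).2) ?_
      · intro x hx hx'
        rw [hφ, hrq, if_neg hx, if_pos hx']
      · intro x hx hx'
        rw [hφ, hrq, if_neg hx, if_neg hx']
      · simp only [List.cons_append, List.isChain_cons_cons] at hch ⊢
        exact hch.2
  have hface : M'.IsFace (A.map j ++ n :: B.map j) := by
    have h1 := face_rotate hface1 (n :: B.map j).length
    rw [List.map_append, ← List.cons_append, List.rotate_append_length_eq] at h1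
    exact h1
  -- labels
  have htj : ∀ x, M'.t (j x) = M.t x := by
    intro x
    unfold LMap.t
    rw [(hfgh x).2.1, hι, (hfgh (M.ι x)).1]
  have hwkj : ∀ (l : List D) (s : ℤ), M'.wkA s (l.map j) = M.wkA s l := by
    intro l
    induction l with
    | nil => intro s; rfl
    | cons x l ih =>
      intro s
      simp only [List.map_cons, LMap.wkA, htj, (hfgh x).2.2, ih]
  have hholj : ∀ l : List D, M'.hol (l.map j) = M.hol l := by
    intro l
    unfold LMap.hol
    rw [List.map_map]
    congr 1
    exact List.map_congr_left (fun x _ => (hfgh x).2.2)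
  -- the walk
  have hw2 := hw
  rw [wk_split, show (u ++ x :: y :: z :: v).map (a ^ c) = (u ++ [x]).map (a ^ c) ++
    ((a ^ c) y :: (a ^ c) z :: v.map (a ^ c)) by simp] at hw2
  obtain ⟨E0, E123⟩ := List.append_inj hw2 (by simp [wkA_length, hAl])
  simp only [LMap.wkA, List.cons.injEq] at E123
  obtain ⟨E1, E2, E3⟩ := E123
  have E4 : (a ^ M.hol A) (M.f r) = (a ^ c) x := by
    have hl := congrArg List.getLast? E0
    rw [List.map_append, List.map_cons, List.map_nil, List.getLast?_concat] at hl
    cases A with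
    | nil => simpa [LMap.wkA, LMap.hol] using hl
    | cons b A =>
      have hcb : List.IsChain (fun a b => M.φ a = b) (b :: (A ++ [r])) := by
        have h1 := ((face_iff M.toDMap b (A ++ r :: q :: B)).1 hF).2
        have h2 : b :: (A ++ r :: q :: B ++ [b]) = (b :: (A ++ [r])) ++ (q :: B ++ [b]) := by simp
        rw [h2] at h1
        exact h1.left_of_append
      have h3 := last_aux M 0 b A r hcb
      simp only [LMap.wkA, List.getLast?_cons_cons] at hl
      rw [h3] at hl
      have h4 := Option.some.inj hl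
      rw [zero_add] at h4
      simpa only [LMap.hol, List.map_cons, List.sum_cons] using h4
  have htn : M'.t n = (a ^ (M.h r + M.h q)) (M.f s) := by
    unfold LMap.t
    rw [hγn, hιn, hfn', hrq]
  have hE2' : (a ^ M.hol A) (M'.t n) = (a ^ c) z := by
    rw [htn, ← E2, t_eq M q, hqs, zpow_apply, zpow_apply]
    congr 2
    ring
  have hwalk : M'.wk (A.map j ++ n :: B.map j) = (u ++ x :: z :: v).map (a ^ c) := by
    rw [wk_split, hwkj, hholj]
    have hhead : M'.f ((A.map j ++ [n]).head (by simp)) = M.f ((A ++ [r]).head (by simp)) := by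
      cases A with
      | nil => simpa using hfn
      | cons b A => simpa using (hfgh b).1
    rw [hhead, E0]
    simp only [LMap.wkA]
    rw [hE2', hhn, hwkj, hrq, ← add_assoc, E3]
    simp
  -- values of `φ'`
  have hmemN : ∀ d', d' ∈ A.map j ++ n :: B.map j ↔ d' = n ∨ ∃ x ∈ s :: C', j x = d' := by
    intro d'
    simp only [List.mem_append, List.mem_cons, List.mem_map]
    constructor
    · rintro (⟨x, hx, h⟩ | h | ⟨x, hx, h⟩)
      · exact Or.inr ⟨x, (hcomm x).1 (Or.inl hx) |> fun h => by simpa using h, h⟩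
      · exact Or.inl h
      · exact Or.inr ⟨x, (hcomm x).1 (Or.inr hx) |> fun h => by simpa using h, h⟩
    · rintro (h | ⟨x, hx, h⟩)
      · exact Or.inr (Or.inl h)
      · rcases (hcomm x).2 (by simpa using hx) with h' | h'
        · exact Or.inl ⟨x, h', h⟩
        · exact Or.inr (Or.inr ⟨x, h', h⟩)
  have hjr : M'.φ (j r) = j q := by
    rw [hφ, hrq, if_neg (Ne.symm hqr), if_neg hqr]
  have hjq : M'.φ (j q) = n' := by rw [hφ, hrq, if_pos rfl]
  have hgen : ∀ x, x ≠ q → M.φ x ≠ r → M'.φ (j x) = j (M.φ x) := by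
    intro x h1 h2
    rw [hφ, hrq, if_neg h1, if_neg h2]
  have hn'h : M'.h n' = -(M.h r + M.h q) := by rw [hhn', hrq]
  have hnot : ∀ x, x ∉ A ++ r :: q :: B ↔ x ≠ r ∧ x ≠ q ∧ x ∉ s :: C' := by
    intro x; rw [hmem]; tauto
  have hinv : ∀ x, x ∉ A ++ r :: q :: B → M.φ x ∉ A ++ r :: q :: B := by
    intro x hx hx'
    have h1 : M.φ x ∈ (A ++ r :: q :: B).rotate 1 := List.mem_rotate.2 hx'
    rw [← hF.2.2] at h1
    obtain ⟨y', hy', hy⟩ := List.mem_map.1 h1
    exact hx (M.φ.injective hy ▸ hy')
  have htri : M'.Tri (j r) ∧ M'.Tri (j q) ∧ M'.Tri n' := by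
    refine ⟨⟨⟨?_, ?_⟩, ?_⟩, ⟨⟨?_, ?_⟩, ?_⟩, ⟨⟨?_, ?_⟩, ?_⟩⟩
    · rw [hjr, hjq, hφn']
    · rw [hjr]; exact fun h => hqr (hj h)
    · rw [hjr, hjq, hn'h, (hfgh r).2.2, (hfgh q).2.2]; ring
    · rw [hjq, hφn', hjr]
    · rw [hjq]; exact (hnA' q).symm
    · rw [hjq, hφn', hn'h, (hfgh r).2.2, (hfgh q).2.2]; ring
    · rw [hφn', hjr, hjq]
    · rw [hφn']; exact hnA' r
    · rw [hφn', hjr, hn'h, (hfgh r).2.2, (hfgh q).2.2]; ring
  -- the sum over darts
  obtain ⟨e, he1, he2⟩ : ∃ e : D ⊕ Bool ≃ D', (∀ x, e (Sum.inl x) = j x) ∧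
      (∀ b, e (Sum.inr b) = if b then n else n') := by
    refine ⟨Equiv.ofBijective (Sum.elim j (fun b => if b then n else n')) ⟨?_, ?_⟩, ?_, ?_⟩
    · rintro (x | x) (x' | x') h
      · simp only [Sum.elim_inl] at h
        rw [hj h]
      · simp only [Sum.elim_inl, Sum.elim_inr] at h
        cases x'
        · exact absurd h (hnA' x)
        · exact absurd h (hnA x)
      · simp only [Sum.elim_inl, Sum.elim_inr] at h
        cases x
        · exact absurd h.symm (hnA' x')
        · exact absurd h.symm (hnA x')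
      · simp only [Sum.elim_inr] at h
        cases x <;> cases x'
        · rfl
        · simp only [Bool.false_eq_true, if_false, if_true] at h
          exact absurd h.symm hnn
        · simp only [Bool.false_eq_true, if_false, if_true] at h
          exact absurd h hnn
        · rfl
    · intro d'
      rcases hcov d' with rfl | rfl | ⟨x, rfl⟩
      · exact ⟨Sum.inr true, rfl⟩
      · exact ⟨Sum.inr false, rfl⟩
      · exact ⟨Sum.inl x, rfl⟩
    · intro x; rfl
    · intro b; rfl
  have hcard : Fintype.card D' = Fintype.card D + 2 := by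
    rw [← Fintype.card_congr e]; simp
  have hsum : ∀ F : D' → ZMod 2, ∑ d', F d' = ∑ x, F (j x) + F n + F n' := by
    intro F
    rw [← Equiv.sum_comp e F, Fintype.sum_sum_type]
    simp only [he1, he2, Fintype.sum_bool, Bool.false_eq_true, if_false, if_true]
    ring
  refine ⟨D', inferInstance, M', A.map j ++ n :: B.map j, ⟨hface, c, hwalk, ?_⟩, hpl hP, ?_, ?_, ?_⟩
  · intro hZ
    apply hc
    intro d
    have h1 := hZ (j d)
    rw [(hfgh d).2.1, (hfgh d).2.2] at h1
    exact h1
  · -- adjacency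
    have hadjn : X.G.Adj (M'.f n) (M'.t n) := by
      rw [← adj_zpow ha _ _ (M.hol A), hE2', hfn, E4, adj_zpow ha]
      exact hxz
    intro d'
    rcases hcov d' with rfl | rfl | ⟨d, rfl⟩
    · exact hadjn
    · rw [← hιn, adj_iota ha]; exact hadjn
    · rw [htj, (hfgh d).1]; exact hAdj d
  · -- Rel
    refine ⟨fun x => j x.1, fun x x' h => Subtype.ext (hj h), ?_, ?_, ?_, ?_, ?_⟩
    · rintro ⟨x, hx⟩ h
      rw [hmemN] at h
      rcases h with h | ⟨x', hx', h⟩
      · exact hnA x h
      · rw [hj h] at hx'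
        exact ((hnot x).1 hx).2.2 hx'
    · rintro ⟨x, hx⟩ ⟨x', hx'⟩ h
      simp only at h ⊢
      rw [hgen x ((hnot x).1 hx).2.1 (by rw [h]; exact ((hnot x').1 hx').1), h]
    · rintro ⟨x, hx⟩
      exact ⟨(hfgh x).1, (hfgh x).2.2⟩
    · intro d' h1 h2
      rw [hmemN] at h1
      push Not at h1
      rcases hcov d' with rfl | rfl | ⟨x, rfl⟩
      · exact absurd rfl h1.1
      · exact htri.2.2
      · by_cases hx : x ∈ A ++ r :: q :: B
        · rcases (hmem x).1 hx with rfl | rfl | h
          · exact htri.1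
          · exact htri.2.1
          · exact absurd rfl (h1.2 x h)
        · exact absurd rfl (h2 ⟨x, hx⟩)
    · rw [hcard]
      simp only [List.length_append, List.length_cons, List.length_map]
      omega
  · -- weights
    intro hZ
    have hZ' : M'.Zero := by
      intro d'
      rcases hcov d' with rfl | rfl | ⟨x, rfl⟩
      · rw [hγn, hhn, (hZ _).2, (hZ _).2]; simp
      · refine ⟨?_, ?_⟩
        · rw [← hιn, M'.γι, hγn, (hZ _).2, (hZ _).2]; simp
        · rw [hhn', (hZ _).2, (hZ _).2]; simp
      · rw [(hfgh x).2.1, (hfgh x).2.2]; exact hZ x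
    have hhol : ∀ l : List D, M.hol l = 0 := by
      intro l
      unfold LMap.hol
      apply List.sum_eq_zero
      intro k hk
      obtain ⟨x, -, rfl⟩ := List.mem_map.1 hk
      exact (hZ x).2
    have hc0 := hc hZ
    have e1 : M.f r = x := by
      rw [hhol, hc0, zpow_zero, Equiv.Perm.one_apply, Equiv.Perm.one_apply] at E4
      exact E4
    have e2 : M.f q = y := by
      rw [hhol, hc0, zpow_zero, Equiv.Perm.one_apply, Equiv.Perm.one_apply, t_eq, hrq, (hZ r).2,
        zpow_zero, Equiv.Perm.one_apply] at E1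
      exact E1
    have e3 : M.f s = z := by
      rw [hhol, hc0, (hZ r).2, add_zero, zpow_zero, Equiv.Perm.one_apply, Equiv.Perm.one_apply,
        t_eq, hqs, (hZ q).2, zpow_zero, Equiv.Perm.one_apply] at E2
      exact E2
    refine ⟨hZ', ?_, ?_⟩
    · intro hY d'
      rcases hcov d' with rfl | rfl | ⟨x, rfl⟩
      · rw [hfn]; exact hY _
      · rw [hfn']; exact hY _
      · rw [(hfgh x).1]; exact hY _
    · obtain ⟨B1, hB1⟩ : ∃ B1 : Set D', B1 = {d | d ∈ A.map j ++ n :: B.map j} := ⟨_, rfl⟩
      obtain ⟨B2, hB2⟩ : ∃ B2 : Set D, B2 = {d | d ∈ A ++ r :: q :: B} := ⟨_, rfl⟩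
      have hm1 : ∀ d', d' ∈ B1 ↔ d' = n ∨ ∃ x ∈ s :: C', j x = d' := by
        intro d'; rw [hB1, Set.mem_setOf_eq, hmemN]
      have hm2 : ∀ d, d ∈ B2 ↔ d ∈ A ++ r :: q :: B := by
        intro d'; rw [hB2, Set.mem_setOf_eq]
      rw [← hB1, ← hB2]
      unfold LMap.wsum
      rw [hsum]
      have t1 : n ∈ B1 := (hm1 n).2 (Or.inl rfl)
      have t2 : n' ∉ B1 := by
        rw [hm1]
        push Not
        exact ⟨Ne.symm hnn, fun x _ => hnA' x⟩
      rw [if_pos t1, if_neg t2, hφn', hjr, hfn', (hfgh r).1, (hfgh q).1, e1, e2, e3]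
      have hterm : ∀ d : D, (if j d ∈ B1 then 0 else
            ω (M'.f (j d)) (M'.f (M'.φ (j d))) (M'.f (M'.φ (M'.φ (j d))))) =
          (if d ∈ B2 then 0 else
            ω (M.f d) (M.f (M.φ d)) (M.f (M.φ (M.φ d)))) +
          ((if d = r then ω x y z else 0) + (if d = q then ω y z x else 0)) := by
        intro d
        by_cases hd : d ∈ A ++ r :: q :: B
        · have hd' : d ∈ B2 := (hm2 d).2 hd
          rw [if_pos hd', zero_add]
          rcases (hmem d).1 hd with rfl | rfl | h
          · rw [if_neg, if_pos rfl, if_neg (Ne.symm hqr), add_zero, hjr, hjq, hfn', (hfgh _).1,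
              (hfgh _).1, e1, e2, e3]
            rw [hm1]
            push Not
            refine ⟨hnA _, fun x' hx' h => ?_⟩
            rw [hj h] at hx'
            exact (hq' _ hx').2 rfl
          · rw [if_neg, if_neg hqr, if_pos rfl, zero_add, hjq, hφn', hfn', (hfgh _).1,
              (hfgh _).1, e1, e2, e3]
            rw [hm1]
            push Not
            refine ⟨hnA _, fun x' hx' h => ?_⟩
            rw [hj h] at hx'
            exact (hq' _ hx').1 rfl
          · have h1 : j d ∈ B1 := (hm1 _).2 (Or.inr ⟨d, h, rfl⟩)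
            rw [if_pos h1, if_neg (hq' d h).2, if_neg (hq' d h).1, add_zero]
        · have hd' : d ∉ B2 := fun h => hd ((hm2 d).1 h)
          have hd1 := (hnot d).1 hd
          have hd2 := (hnot _).1 (hinv d hd)
          have hd3 := (hnot _).1 (hinv _ (hinv d hd))
          have h1 : j d ∉ B1 := by
            rw [hm1]
            push Not
            refine ⟨hnA _, fun x' hx' h => ?_⟩
            rw [hj h] at hx'
            exact hd1.2.2 hx'
          rw [if_neg h1, if_neg hd', if_neg hd1.1, if_neg hd1.2.1, add_zero, add_zero,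
            hgen d hd1.2.1 hd2.1, hgen _ hd2.2.1 hd3.1, (hfgh _).1, (hfgh _).1, (hfgh _).1]
      rw [Finset.sum_congr rfl (fun d _ => hterm d), Finset.sum_add_distrib,
        Finset.sum_add_distrib, Finset.sum_ite_eq' Finset.univ r, Finset.sum_ite_eq' Finset.univ q]
      simp only [Finset.mem_univ, if_true]
      have w1 : ω y z x = ω x y z := by rw [hω.s23 y x z, hω.s12 x y z]
      have w2 : ω z x y = ω x y z := by rw [hω.s12 x z y, hω.s23 x y z]
      rw [w1, w2]
      have h2 : ω x y z + ω x y z = 0 := CharTwo.add_self_eq_zero _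
      linear_combination h2

end MSG.H25
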