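import Pool.Agent.Lib.MP_acafa7_al.MS.Iface2

/-! Module FanEx: existence of the fan. -/

namespace MSG.H25

open Classical

/-- Orbits of a permutation of a finite type. -/
theorem cycle_list {D : Type} [Fintype D] (σ : Equiv.Perm D) (o : D) :
    ∃ k : ℕ, (σ ^ (k + 1)) o = o ∧
      (∀ j j', j ≤ k → j' ≤ k → (σ ^ (j + 1)) o = (σ ^ (j' + 1)) o → j = j') ∧
      (∀ d, Equiv.Perm.SameCycle σ o d ↔ ∃ j, j ≤ k ∧ (σ ^ (j + 1)) o = d) := by
  have hex : ∃ n : ℕ, 0 < n ∧ (σ ^ n) o = o := by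
    refine ⟨orderOf σ, orderOf_pos σ, ?_⟩
    rw [pow_orderOf_eq_one]; rfl
  obtain ⟨n, ⟨hn0, hn⟩, hmin⟩ : ∃ n, (0 < n ∧ (σ ^ n) o = o) ∧
      ∀ m, 0 < m ∧ (σ ^ m) o = o → n ≤ m :=
    ⟨Nat.find hex, Nat.find_spec hex, fun m hm => Nat.find_min' hex hm⟩
  obtain ⟨k, rfl⟩ : ∃ k, n = k + 1 := ⟨n - 1, by omega⟩
  have hinj : ∀ i j : ℕ, i < j → j ≤ k + 1 → 0 < i → (σ ^ i) o = (σ ^ j) o → False := by
    intro i j hij hj hi h
    have h1 : (σ ^ (j - i)) o = o := by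
      have e : j = i + (j - i) := by omega
      rw [e, pow_add, Equiv.Perm.mul_apply] at h
      exact ((σ ^ i).injective h).symm
    have := hmin (j - i) ⟨by omega, h1⟩
    omega
  refine ⟨k, hn, ?_, ?_⟩
  · intro j j' hj hj' h
    rcases lt_trichotomy j j' with hlt | he | hlt
    · exact (hinj (j + 1) (j' + 1) (by omega) (by omega) (by omega) h).elim
    · exact he
    · exact (hinj (j' + 1) (j + 1) (by omega) (by omega) (by omega) h.symm).elim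
  · intro d
    constructor
    · intro h
      obtain ⟨i, -, hi⟩ := h.exists_pow_eq'
      have hmod : ∀ m : ℕ, (σ ^ m) o = (σ ^ (m % (k + 1))) o := by
        intro m
        conv_lhs => rw [← Nat.mod_add_div m (k + 1)]
        rw [pow_add, Equiv.Perm.mul_apply]
        congr 1
        rw [pow_mul]
        induction (m / (k + 1)) with
        | zero => simp
        | succ q ih => rw [pow_succ, Equiv.Perm.mul_apply, hn, ih]
      rw [hmod] at hi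
      by_cases h0 : i % (k + 1) = 0
      · rw [h0, pow_zero, Equiv.Perm.one_apply] at hi
        exact ⟨k, le_rfl, by rw [hn, hi]⟩
      · have hlt : i % (k + 1) < k + 1 := Nat.mod_lt i (Nat.succ_pos k)
        refine ⟨i % (k + 1) - 1, by omega, ?_⟩
        rw [show i % (k + 1) - 1 + 1 = i % (k + 1) by omega, hi]
    · rintro ⟨j, -, rfl⟩
      exact ⟨((j + 1 : ℕ) : ℤ), by rw [zpow_natCast]⟩

/-- FanEx -/
theorem fanex (hV : VOrbStatement) : FanExStatement := by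
  intro V X a C 𝒜 o hm
  obtain ⟨hoP, huniq, -⟩ := hm
  obtain ⟨k, h1, h2, h3⟩ := cycle_list (𝒜.M.φ.symm.trans 𝒜.M.ι) o
  obtain ⟨σ, hσ⟩ : ∃ σ : Equiv.Perm 𝒜.D, σ = 𝒜.M.φ.symm.trans 𝒜.M.ι := ⟨_, rfl⟩
  rw [← hσ] at h1 h2 h3
  have hσa : ∀ d, σ d = 𝒜.M.ι (𝒜.M.φ.symm d) := by intro d; rw [hσ]; rfl
  have hcls : ∀ d, 𝒜.M.SameV o d ↔ ∃ j, j ≤ k ∧ (σ ^ (j + 1)) o = d := by
    intro d
    rw [hV 𝒜.D 𝒜.M.toDMap o d, ← hσ, h3]
  have htri : ∀ j, j < k → (σ ^ (j + 1)) o ∉ annB 𝒜.P 𝒜.Q := by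
    intro j hj hb
    have h4 := huniq _ hb ((hcls _).2 ⟨j, hj.le, rfl⟩)
    have := h2 j k hj.le le_rfl (by rw [h4, h1])
    omega
  have hoff := 𝒜.ok.ann.off.2
  refine ⟨k, fun j => (σ ^ (j + 1)) o, ?_, h1, ?_, htri, h2, hcls, ?_⟩
  · show 𝒜.M.φ (𝒜.M.ι ((σ ^ (0 + 1)) o)) = o
    rw [zero_add, pow_one, hσa, 𝒜.M.ιι, Equiv.apply_symm_apply]
  · intro j hj
    show (σ ^ (j + 1 + 1)) o = 𝒜.M.ι (𝒜.M.φ (𝒜.M.φ ((σ ^ (j + 1)) o)))
    rw [pow_succ' σ (j + 1), Equiv.Perm.mul_apply, hσa]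
    congr 1
    rw [Equiv.symm_apply_eq]
    exact (hoff _ (htri j hj)).1.1.symm
  · -- curvature
    unfold DMap.curv
    have hsum : ∑ d : 𝒜.D, (if 𝒜.M.SameV o d then 𝒜.M.wt 𝒜.ℓ (annB 𝒜.P 𝒜.Q) d else 0) =
        ∑ j ∈ Finset.range (k + 1), 𝒜.M.wt 𝒜.ℓ (annB 𝒜.P 𝒜.Q) ((σ ^ (j + 1)) o) := by
      rw [← Finset.sum_filter]
      symm
      refine Finset.sum_bij (fun j _ => (σ ^ (j + 1)) o) ?_ ?_ ?_ ?_
      · intro j hj
        rw [Finset.mem_range] at hj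
        rw [Finset.mem_filter]
        exact ⟨Finset.mem_univ _, (hcls _).2 ⟨j, by omega, rfl⟩⟩
      · intro j hj j' hj' h
        rw [Finset.mem_range] at hj hj'
        exact h2 j j' (by omega) (by omega) h
      · intro d hd
        rw [Finset.mem_filter] at hd
        obtain ⟨j, hj, h⟩ := (hcls d).1 hd.2
        exact ⟨j, Finset.mem_range.2 (by omega), h⟩
      · intro j _; rfl
    rw [hsum, Finset.sum_range_succ, h1]
    have hw : 𝒜.M.wt 𝒜.ℓ (annB 𝒜.P 𝒜.Q) o = Real.pi := by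
      have ho : o ∈ annB 𝒜.P 𝒜.Q := Or.inl hoP
      unfold DMap.wt
      rw [if_pos ho]
    have hw2 : ∑ j ∈ Finset.range k, 𝒜.M.wt 𝒜.ℓ (annB 𝒜.P 𝒜.Q) ((σ ^ (j + 1)) o) =
        ∑ j ∈ Finset.range k, 𝒜.M.th 𝒜.ℓ ((σ ^ (j + 1)) o) := by
      refine Finset.sum_congr rfl fun j hj => ?_
      unfold DMap.wt
      rw [if_neg (htri j (Finset.mem_range.1 hj))]
    rw [hw, hw2]
    ring

end MSG.H25
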