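import Pool.Agent.Lib.MP_acafa7_al.MS.Iface2
import Pool.Agent.Lib.MP_acafa7_al.MS.H25.StepC
import Pool.Agent.Lib.MP_acafa7_al.MS.H25.Grid

/-! Module Ann: existence of annuli with given boundary walks. -/

namespace MSG.H25

open Classical

namespace AN

variable {V D D' : Type} {a : Equiv.Perm V}

theorem face_mem {M : DMap D} {l : List D} (h : M.IsFace l) {d : D} (hd : d ∈ l) : M.φ d ∈ l := by
  have h2 : M.φ d ∈ l.map M.φ := List.mem_map_of_mem hd
  rw [h.2.2] at h2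
  exact List.mem_rotate.1 h2

theorem face_not {M : DMap D} {l : List D} (h : M.IsFace l) {d : D} (hd : d ∉ l) : M.φ d ∉ l := by
  intro hx'
  have h1 : M.φ d ∈ l.rotate 1 := List.mem_rotate.2 hx'
  rw [← h.2.2] at h1
  obtain ⟨y', hy', hy⟩ := List.mem_map.1 h1
  exact hd (M.φ.injective hy ▸ hy')

theorem wkA_map (M : LMap V D a) (M' : LMap V D' a) (J : D → D') : ∀ (l : List D) (s : ℤ),
    (∀ x ∈ l, M'.t (J x) = M.t x ∧ M'.h (J x) = M.h x) → M'.wkA s (l.map J) = M.wkA s l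
  | [], s, _ => rfl
  | x :: l, s, h => by
    have hx := h x (by simp)
    simp only [List.map_cons, LMap.wkA, hx.1, hx.2,
      wkA_map M M' J l _ (fun y hy => h y (List.mem_cons_of_mem _ hy))]

theorem wk_map (M : LMap V D a) (M' : LMap V D' a) (J : D → D') (l : List D)
    (h : ∀ x ∈ l, M'.f (J x) = M.f x ∧ M'.t (J x) = M.t x ∧ M'.h (J x) = M.h x) :
    M'.wk (l.map J) = M.wk l := by
  cases l with
  | nil => rfl
  | cons x l =>
    have := wkA_map M M' J (x :: l) 0 (fun y hy => (h y hy).2)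
    rw [List.map_cons] at this ⊢
    rw [SC.wk_eq, SC.wk_eq, this, (h x (by simp)).1]

theorem hol_map (M : LMap V D a) (M' : LMap V D' a) (J : D → D') (l : List D)
    (h : ∀ x ∈ l, M'.h (J x) = M.h x) : M'.hol (l.map J) = M.hol l := by
  unfold LMap.hol
  rw [List.map_map]
  congr 1
  exact List.map_congr_left (fun x hx => h x hx)

theorem rel_ann [Fintype D] [Fintype D'] (M : LMap V D a) (P R : List D) (M' : LMap V D' a)
    (R' : List D') (n : ℕ) (hP : M.IsFace P) (hR : M.IsFace R) (hR' : M'.IsFace R')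
    (hd : ∀ d ∈ P, d ∉ R) (hoff : M.Off (annB P R)) (hrel : M.Rel R M' R' n) :
    ∃ J : D → D', M'.IsFace (P.map J) ∧ (∀ d ∈ P.map J, d ∉ R') ∧ M'.Off (annB (P.map J) R') ∧
      ∀ x ∈ P, M'.f (J x) = M.f x ∧ M'.t (J x) = M.t x ∧ M'.h (J x) = M.h x := by
  obtain ⟨j, hj, hjR, hφ, hfh, hT, -⟩ := hrel
  obtain ⟨d0, R0, hR0⟩ := List.exists_cons_of_ne_nil hR'.1
  obtain ⟨J, hJ⟩ : ∃ J : D → D', ∀ x (h : x ∉ R), J x = j ⟨x, h⟩ :=
    ⟨fun x => if h : x ∉ R then j ⟨x, h⟩ else d0, fun x h => dif_pos h⟩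
  have hJinj : ∀ x y, x ∉ R → y ∉ R → J x = J y → x = y := by
    intro x y hx hy h
    rw [hJ x hx, hJ y hy] at h
    exact congrArg Subtype.val (hj h)
  have hJφ : ∀ x, x ∉ R → M'.φ (J x) = J (M.φ x) := by
    intro x hx
    have hx' := face_not hR hx
    rw [hJ x hx, hJ _ hx']
    exact hφ ⟨x, hx⟩ ⟨M.φ x, hx'⟩ rfl
  have hJf : ∀ x, x ∉ R → M'.f (J x) = M.f x ∧ M'.h (J x) = M.h x := by
    intro x hx
    rw [hJ x hx]
    exact hfh ⟨x, hx⟩
  have hJR : ∀ x, x ∉ R → J x ∉ R' := by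
    intro x hx
    rw [hJ x hx]
    exact hjR _
  refine ⟨J, ⟨?_, ?_, ?_⟩, ?_, ⟨?_, ?_⟩, ?_⟩
  · simpa using hP.1
  · exact List.Nodup.map_on (fun x hx y hy h => hJinj x y (hd x hx) (hd y hy) h) hP.2.1
  · rw [List.map_map, ← List.map_rotate, ← hP.2.2, List.map_map]
    exact List.map_congr_left (fun x hx => hJφ x (hd x hx))
  · intro d hd'
    obtain ⟨x, hx, rfl⟩ := List.mem_map.1 hd'
    exact hJR x (hd x hx)
  · rintro d (hd' | hd')
    · obtain ⟨x, hx, rfl⟩ := List.mem_map.1 hd'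
      rw [hJφ x (hd x hx)]
      exact Or.inl (List.mem_map_of_mem (face_mem hP hx))
    · exact Or.inr (face_mem hR' hd')
  · intro d' hd'
    have hd1 : d' ∉ P.map J := fun h => hd' (Or.inl h)
    have hd2 : d' ∉ R' := fun h => hd' (Or.inr h)
    by_cases hex : ∃ x, x ∉ R ∧ J x = d'
    · obtain ⟨x, hx, rfl⟩ := hex
      have hxP : x ∉ P := fun h => hd1 (List.mem_map_of_mem h)
      have hx1 := face_not hR hx
      have hx2 := face_not hR hx1
      obtain ⟨⟨h1, h2⟩, h3⟩ := hoff.2 x (by rintro (h | h); exacts [hxP h, hx h])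
      refine ⟨⟨?_, ?_⟩, ?_⟩
      · rw [hJφ x hx, hJφ _ hx1, hJφ _ hx2, h1]
      · rw [hJφ x hx]
        exact fun h => h2 (hJinj _ _ hx1 hx h)
      · rw [hJφ x hx, hJφ _ hx1, (hJf x hx).2, (hJf _ hx1).2, (hJf _ hx2).2]
        exact h3
    · refine hT d' hd2 ?_
      rintro ⟨x, hx⟩ h
      exact hex ⟨x, hx, by rw [hJ x hx]; exact h⟩
  · intro x hx
    have hxR := hd x hx
    refine ⟨(hJf x hxR).1, ?_, (hJf x hxR).2⟩
    rw [SC.t_eq, SC.t_eq, hJφ x hxR, (hJf x hxR).2, (hJf _ (face_not hR hxR)).1]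

/-- holonomy from the walk -/
theorem hol_of_walk (hfree : ∀ (x : V) (n : ℤ), (a ^ n) x = x → n = 0) (M : LMap V D a)
    (R : List D) (hR : M.IsFace R) (w : List V) (c : ℤ) (hw : M.wk R = w.map (a ^ c)) (u v : V)
    (m : ℤ) (hu : w.head? = some u) (hv : w.getLast? = some v) (huv : v = (a ^ m) u) :
    M.hol R = m := by
  obtain ⟨b, A, rfl⟩ := List.exists_cons_of_ne_nil hR.1
  have hch := ((SC.face_iff M.toDMap b A).1 hR).2
  have h1 := SC.last_aux M 0 b A b hch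
  have h2 : (M.wk (b :: A)).getLast? = some ((a ^ M.hol (b :: A)) (M.f b)) := by
    rw [SC.wk_eq]
    simp only [LMap.wkA, List.getLast?_cons_cons]
    rw [h1, zero_add]
    simp only [LMap.hol, List.map_cons, List.sum_cons]
  have h3 : (M.wk (b :: A)).head? = some (M.f b) := by rw [SC.wk_eq]; rfl
  rw [hw, List.getLast?_map, hv] at h2
  rw [hw, List.head?_map, hu] at h3
  simp only [Option.map_some, Option.some.injEq] at h2 h3
  rw [← h3, huv, SC.zpow_apply, SC.zpow_apply] at h2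
  have h4 : (a ^ (M.hol (b :: A) - m)) u = u := by
    have h5 : (a ^ (-(c + m))) ((a ^ (c + m)) u) = (a ^ (-(c + m))) ((a ^ (M.hol (b :: A) + c)) u) := by
      rw [h2]
    rw [SC.zpow_apply, SC.zpow_apply, neg_add_cancel, zpow_zero, Equiv.Perm.one_apply] at h5
    rw [show M.hol (b :: A) - m = -(c + m) + (M.hol (b :: A) + c) by ring]
    exact h5.symm
  have := hfree u _ h4
  omega

end AN

open AN Gr in
/-- Ann -/
theorem ann (h1 : CycMStatement) (h2 : HomTStatement) (h3 : AnnHStatement) (h4 : AnnZStatement) :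
    AnnStatement := by
  intro V X a hMS ha x y s s' hs hs' h3s h3s'
  obtain ⟨D, _, M, P, Q, hann, hadj, hwP, hwQ⟩ := h1 V X a hMS.metric ha x s hs
  obtain ⟨γ, hγ⟩ := exists_isW hMS.conn x y
  have haadj : ∀ x y, X.G.Adj x y → X.G.Adj (a x) (a y) := fun x y h => (ha.adj x y).2 h
  have hγa := isW_map a haadj hγ
  have hw' : IsW X.G x (a x) (cat (cat γ s') (γ.map a).reverse) :=
    isW_cat (isW_cat hγ hs') (isW_reverse hγa)
  have hne : a x ≠ x := by
    intro h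
    have := ha.free x 1 (by rw [zpow_one]; exact h)
    omega
  have hlen : 3 ≤ (cat (cat γ s') (γ.map a).reverse).length := by
    rw [cat_eq (isW_cat hγ hs') (isW_reverse hγa), cat_eq hγ hs', List.length_append,
      List.length_dropLast, List.length_append, List.length_reverse, List.length_map,
      List.length_dropLast]
    have : 1 ≤ γ.length := List.length_pos_iff.2 (isW_ne hγ)
    omega
  have hH3 := h2 V X.G hMS.conn hMS.sc (a x) x s.reverse _ hne (isW_reverse hs) (isW_reverse hw')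
    (by rw [List.length_reverse]; exact h3s) (by rw [List.length_reverse]; exact hlen)
  obtain ⟨D1, _, M1, R1, n1, hW1, hP1, hA1, hRel1⟩ := h3 V D X a ha M Q _ _ hann.planar hadj hwQ hH3
  obtain ⟨D2, _, M2, R2, hW2, hP2, hA2, hRel2⟩ := h4 V D1 X a ha M1 R1 x y γ s' hP1 hA1 hγ hs'
    h3s' hW1
  obtain ⟨J1, f1, d1, o1, l1⟩ := rel_ann M P Q M1 R1 n1 hann.faceP hann.faceQ hW1.1 hann.disj
    hann.off hRel1
  obtain ⟨J2, f2, d2, o2, l2⟩ := rel_ann M1 (P.map J1) R1 M2 R2 0 f1 hW1.1 hW2.1 d1 o1 hRel2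
  refine ⟨D2, inferInstance, M2, (P.map J1).map J2, R2, ⟨hP2, f2, hW2.1, d2, o2, ?_, ?_,
    Or.inl rfl⟩, hA2, ?_, hW2⟩
  · rw [hol_map M1 M2 J2 _ (fun z hz => (l2 z hz).2.2),
      hol_map M M1 J1 _ (fun z hz => (l1 z hz).2.2), hann.holP]
  · obtain ⟨hF, c, hwk, -⟩ := hW2
    refine hol_of_walk ha.free M2 R2 hF _ c hwk (a y) y (-1) (isW_reverse hs').first
      (isW_reverse hs').last ?_
    rw [zpow_neg, zpow_one]; simp
  · rw [wk_map M1 M2 J2 _ l2, wk_map M M1 J1 _ l1, hwP]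

end MSG.H25
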